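import Pool.Agent.Helper190.Carb.Rect

set_option autoImplicit false

namespace Pool.Agent.Helper190.Carb

open Finset Classical

variable {p M : ℕ} [Fact p.Prime] {L : Type} [Field L] [Fintype L] [Algebra (ZMod p) L]

namespace Tow

variable (T : Tow p M L)

/-- number of elements of `E j` with prescribed functionals -/
noncomputable def cnt (j : ℕ) (H : Finset ℕ) (w₀ : ZMod p) (w : ℕ → ZMod p) : ℕ :=
  (univ.filter (fun l : L => l ∈ T.E j ∧ T.τ l = w₀ ∧ ∀ h ∈ H, T.D h l = w h)).card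

noncomputable def nE (j : ℕ) : ℕ := (univ.filter (fun l : L => l ∈ T.E j)).card

omit [Fintype L] in
theorem smul_mem' (j : ℕ) (a : ZMod p) {x : L} (hx : x ∈ T.E j) : a • x ∈ T.E j := by
  rw [Algebra.smul_def]
  exact mul_mem (T.alg_mem j a) hx

theorem cnt_insert {j : ℕ} {H : Finset ℕ} (hjM : j ≤ M) {h₀ : ℕ} (h₀H : h₀ ∉ H)
    (h₀j : h₀ < j) (hH : ∀ h ∈ H, h < j) (w₀ : ZMod p) (w : ℕ → ZMod p) :
    T.cnt j H w₀ w = p * T.cnt j (insert h₀ H) w₀ w := by
  have h1 : T.cnt j H w₀ w = ∑ a : ZMod p,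
      (univ.filter (fun l : L => (l ∈ T.E j ∧ T.τ l = w₀ ∧ ∀ h ∈ H, T.D h l = w h) ∧
        T.D h₀ l = a)).card := by
    unfold cnt
    rw [Finset.card_eq_sum_card_fiberwise (f := fun l : L => T.D h₀ l) (t := univ)
      (fun _ _ => mem_coe.2 (mem_univ _))]
    refine Finset.sum_congr rfl (fun a _ => ?_)
    rw [Finset.filter_filter]
  have h2 : ∀ a : ZMod p,
      (univ.filter (fun l : L => (l ∈ T.E j ∧ T.τ l = w₀ ∧ ∀ h ∈ H, T.D h l = w h) ∧
        T.D h₀ l = a)).card = T.cnt j (insert h₀ H) w₀ w := by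
    intro a
    unfold cnt
    refine Finset.card_bij' (fun l _ => l + (w h₀ - a) • T.ζ h₀) (fun l _ => l - (w h₀ - a) • T.ζ h₀)
      ?_ ?_ ?_ ?_
    · intro l hl
      simp only [mem_filter, mem_univ, true_and] at hl ⊢
      obtain ⟨⟨h3, h4, h5⟩, h6⟩ := hl
      refine ⟨add_mem h3 (T.smul_mem' j _ (T.ζ_mem (by omega) (by omega))), ?_, ?_⟩
      · rw [map_add, ZMod.map_smul, T.τ_ζ (by omega), smul_zero, add_zero, h4]
      · intro h hh
        rcases mem_insert.1 hh with rfl | hh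
        · rw [map_add, ZMod.map_smul, T.D_ζ (by omega) (by omega), if_pos rfl, h6]
          simp
        · have h7 : h ≠ h₀ := fun h8 => h₀H (h8 ▸ hh)
          have h8 := hH h hh
          rw [map_add, ZMod.map_smul, T.D_ζ (by omega) (by omega), if_neg h7, h5 h hh]
          simp
    · intro l hl
      simp only [mem_filter, mem_univ, true_and] at hl ⊢
      obtain ⟨h3, h4, h5⟩ := hl
      refine ⟨⟨sub_mem h3 (T.smul_mem' j _ (T.ζ_mem (by omega) (by omega))), ?_, ?_⟩, ?_⟩
      · rw [map_sub, ZMod.map_smul, T.τ_ζ (by omega), smul_zero, sub_zero, h4]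
      · intro h hh
        have h7 : h ≠ h₀ := fun h8 => h₀H (h8 ▸ hh)
        have h8 := hH h hh
        rw [map_sub, ZMod.map_smul, T.D_ζ (by omega) (by omega), if_neg h7,
          h5 h (mem_insert_of_mem hh)]
        simp
      · rw [map_sub, ZMod.map_smul, T.D_ζ (by omega) (by omega), if_pos rfl,
          h5 h₀ (mem_insert_self _ _)]
        simp
    · intro l _; simp
    · intro l _; simp
  rw [h1, Finset.sum_congr rfl (fun a _ => h2 a), Finset.sum_const, Finset.card_univ, ZMod.card,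
    smul_eq_mul]

theorem cnt_empty (j : ℕ) (w₀ : ZMod p) (w : ℕ → ZMod p) : T.nE j = p * T.cnt j ∅ w₀ w := by
  have h1 : T.nE j = ∑ a : ZMod p,
      (univ.filter (fun l : L => l ∈ T.E j ∧ T.τ l = a)).card := by
    unfold nE
    rw [Finset.card_eq_sum_card_fiberwise (f := fun l : L => T.τ l) (t := univ)
      (fun _ _ => mem_coe.2 (mem_univ _))]
    refine Finset.sum_congr rfl (fun a _ => ?_)
    rw [Finset.filter_filter]
  have h2 : ∀ a : ZMod p,
      (univ.filter (fun l : L => l ∈ T.E j ∧ T.τ l = a)).card = T.cnt j ∅ w₀ w := by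
    intro a
    unfold cnt
    refine Finset.card_bij' (fun l _ => l + algebraMap (ZMod p) L (w₀ - a))
      (fun l _ => l - algebraMap (ZMod p) L (w₀ - a)) ?_ ?_ ?_ ?_
    · intro l hl
      simp only [mem_filter, mem_univ, true_and] at hl ⊢
      refine ⟨add_mem hl.1 (T.alg_mem j _), ?_, by simp⟩
      rw [map_add, T.τ_alg, hl.2]
      ring
    · intro l hl
      simp only [mem_filter, mem_univ, true_and] at hl ⊢
      refine ⟨sub_mem hl.1 (T.alg_mem j _), ?_⟩
      rw [map_sub, T.τ_alg, hl.2.1]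
      ring
    · intro l _; simp
    · intro l _; simp
  rw [h1, Finset.sum_congr rfl (fun a _ => h2 a), Finset.sum_const, Finset.card_univ, ZMod.card,
    smul_eq_mul]

theorem cnt_eq {j : ℕ} (hjM : j ≤ M) (H : Finset ℕ) (hH : ∀ h ∈ H, h < j) (w₀ : ZMod p)
    (w : ℕ → ZMod p) : T.nE j = p ^ (H.card + 1) * T.cnt j H w₀ w := by
  induction H using Finset.induction_on with
  | empty => simpa using T.cnt_empty j w₀ w
  | insert h₀ H h₀H ih =>
    rw [ih (fun h hh => hH h (mem_insert_of_mem hh)),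
      T.cnt_insert hjM h₀H (hH h₀ (mem_insert_self _ _)) (fun h hh => hH h (mem_insert_of_mem hh)),
      card_insert_of_notMem h₀H, pow_succ p (H.card + 1), mul_assoc]

/-- count with one functional required to be nonzero. -/
theorem cnt_ne {j : ℕ} (hjM : j ≤ M) (H : Finset ℕ) (hH : ∀ h ∈ H, h < j) {h₀ : ℕ}
    (h₀H : h₀ ∉ H) (h₀j : h₀ < j) (w₀ : ZMod p) (w : ℕ → ZMod p) :
    (p - 1) * T.nE j = p ^ (H.card + 2) *
      (univ.filter (fun l : L => l ∈ T.E j ∧ T.τ l = w₀ ∧ (∀ h ∈ H, T.D h l = w h) ∧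
        T.D h₀ l ≠ 0)).card := by
  have h1 : T.cnt j H w₀ w = (univ.filter (fun l : L => l ∈ T.E j ∧ T.τ l = w₀ ∧
      (∀ h ∈ H, T.D h l = w h) ∧ T.D h₀ l ≠ 0)).card
      + T.cnt j (insert h₀ H) w₀ (Function.update w h₀ 0) := by
    unfold cnt
    rw [← Finset.card_filter_add_card_filter_not (s := univ.filter
      (fun l : L => l ∈ T.E j ∧ T.τ l = w₀ ∧ ∀ h ∈ H, T.D h l = w h)) (fun l : L => T.D h₀ l ≠ 0)]
    congr 1
    · rw [filter_filter]
      congr 1
      ext l
      simp only [mem_filter, mem_univ, true_and]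
      tauto
    · rw [filter_filter]
      congr 1
      ext l
      simp only [mem_filter, mem_univ, true_and, not_not]
      constructor
      · rintro ⟨⟨h3, h4, h5⟩, h6⟩
        refine ⟨h3, h4, fun h hh => ?_⟩
        rcases mem_insert.1 hh with rfl | hh
        · simpa using h6
        · have h7 : h ≠ h₀ := fun h8 => h₀H (h8 ▸ hh)
          rw [Function.update_of_ne h7, h5 h hh]
      · rintro ⟨h3, h4, h5⟩
        refine ⟨⟨h3, h4, fun h hh => ?_⟩, ?_⟩
        · have h7 : h ≠ h₀ := fun h8 => h₀H (h8 ▸ hh)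
          have := h5 h (mem_insert_of_mem hh)
          rwa [Function.update_of_ne h7] at this
        · simpa using h5 h₀ (mem_insert_self _ _)
  have h2 := T.cnt_eq hjM H hH w₀ w
  have h3 := T.cnt_eq hjM (insert h₀ H) (by
    intro h hh
    rcases mem_insert.1 hh with rfl | hh
    · exact h₀j
    · exact hH h hh) w₀ (Function.update w h₀ 0)
  rw [card_insert_of_notMem h₀H] at h3
  have hp : 1 ≤ p := (Fact.out : p.Prime).one_lt.le
  obtain ⟨q, rfl⟩ : ∃ q, p = q + 1 := ⟨p - 1, by omega⟩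
  simp only [Nat.add_sub_cancel]
  generalize (univ.filter (fun l : L => l ∈ T.E j ∧ T.τ l = w₀ ∧
      (∀ h ∈ H, T.D h l = w h) ∧ T.D h₀ l ≠ 0)).card = X at *
  generalize T.cnt j (insert h₀ H) w₀ (Function.update w h₀ 0) = Y at *
  generalize T.cnt j H w₀ w = Z at *
  generalize T.nE j = n at *
  have h4 : (q + 1) * n = (q + 1) ^ (#H + 2) * Z := by rw [h2]; ring
  have h5 : n = (q + 1) ^ (#H + 2) * Y := by rw [h3]
  have h6 : (q + 1) * n = (q + 1) ^ (#H + 2) * X + n := by
    rw [h4, h1, mul_add, ← h5]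
  have h7 : (q + 1) * n = q * n + n := by ring
  omega

end Tow

end Pool.Agent.Helper190.Carb
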