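import Mathlib

set_option autoImplicit false

namespace Pool.Agent.Helper190.Carb

open Finset

/-- Integer with base-`p` digits given by the representatives of `a i`. -/
def dsum (p : ℕ) (a : ℕ → ZMod p) (n : ℕ) : ℤ := ∑ i ∈ range n, ((a i).val : ℤ) * (p : ℤ) ^ i

variable {p : ℕ}

theorem dsum_succ (a : ℕ → ZMod p) (n : ℕ) :
    dsum p a (n + 1) = dsum p a n + ((a n).val : ℤ) * (p : ℤ) ^ n := by
  simp [dsum, Finset.sum_range_succ]

theorem dsum_nonneg (a : ℕ → ZMod p) (n : ℕ) : 0 ≤ dsum p a n := by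
  unfold dsum
  positivity

theorem dsum_lt [NeZero p] (a : ℕ → ZMod p) (n : ℕ) : dsum p a n < (p : ℤ) ^ n := by
  induction n with
  | zero => simp [dsum]
  | succ n ih =>
    rw [dsum_succ, pow_succ]
    have h1 : ((a n).val : ℤ) + 1 ≤ p := by
      have := ZMod.val_lt (a n)
      exact_mod_cast this
    have h2 : (0 : ℤ) ≤ (p : ℤ) ^ n := by positivity
    nlinarith [mul_le_mul_of_nonneg_right h1 h2]

theorem dsum_congr {a b : ℕ → ZMod p} {n : ℕ} (h : ∀ i, i < n → a i = b i) :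
    dsum p a n = dsum p b n := by
  unfold dsum
  apply Finset.sum_congr rfl
  intro i hi
  rw [h i (Finset.mem_range.1 hi)]

theorem dsum_mod (a : ℕ → ZMod p) {m n : ℕ} (h : m ≤ n) :
    dsum p a n ≡ dsum p a m [ZMOD (p : ℤ) ^ m] := by
  induction n, h using Nat.le_induction with
  | base => rfl
  | succ n hn ih =>
    rw [dsum_succ]
    have : ((a n).val : ℤ) * (p : ℤ) ^ n ≡ 0 [ZMOD (p : ℤ) ^ m] := by
      rw [Int.modEq_zero_iff_dvd]
      exact Dvd.dvd.mul_left (pow_dvd_pow _ hn) _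
    simpa using ih.add this

/-- every integer is congruent to a digit sum. -/
theorem exists_digits [NeZero p] (z : ℤ) (n : ℕ) :
    ∃ a : ℕ → ZMod p, dsum p a n ≡ z [ZMOD (p : ℤ) ^ n] := by
  induction n with
  | zero => exact ⟨fun _ => 0, by simp [Int.modEq_one]⟩
  | succ n ih =>
    obtain ⟨a, ha⟩ := ih
    obtain ⟨q, hq⟩ := ha.dvd
    -- z - dsum a n = p^n * q
    refine ⟨fun i => if i = n then (q : ZMod p) else a i, ?_⟩
    rw [dsum_succ]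
    have h1 : dsum p (fun i => if i = n then (q : ZMod p) else a i) n = dsum p a n :=
      dsum_congr (fun i hi => by simp [hi.ne])
    rw [h1]
    simp only [if_true]
    have h2 : (((q : ZMod p)).val : ℤ) ≡ q [ZMOD p] := by
      have : (((q : ZMod p).val : ℤ) : ZMod p) = ((q : ℤ) : ZMod p) := by
        simp
      exact (ZMod.intCast_eq_intCast_iff _ _ _).1 this
    obtain ⟨t, ht⟩ := h2.dvd
    rw [Int.modEq_iff_dvd]
    refine ⟨t, ?_⟩
    have : z = dsum p a n + (p : ℤ) ^ n * q := by linarith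
    rw [this, pow_succ]
    have h3 : q = ((q : ZMod p).val : ℤ) + p * t := by linarith
    calc dsum p a n + (p : ℤ) ^ n * q - (dsum p a n + ((q : ZMod p).val : ℤ) * (p : ℤ) ^ n)
        = (p : ℤ) ^ n * (q - ((q : ZMod p).val : ℤ)) := by ring
      _ = (p : ℤ) ^ n * (p * t) := by rw [show q - ((q : ZMod p).val : ℤ) = p * t by linarith]
      _ = (p : ℤ) ^ n * p * t := by ring

/-- label difference. `a` are the digits of the column, `b` those of the row. -/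
def dif (p ν : ℕ) (a b : ℕ → ZMod p) (s : ℕ) : ℤ :=
  dsum p a (s + 1) - dsum p (fun i => b i + ((ν + 1 : ℕ) : ZMod p)) (s + 1)

theorem dif_mod (ν : ℕ) (a b : ℕ → ZMod p) {s t : ℕ} (h : s ≤ t) :
    dif p ν a b t ≡ dif p ν a b s [ZMOD (p : ℤ) ^ (s + 1)] :=
  (dsum_mod a (by omega)).sub (dsum_mod _ (by omega))

theorem dif_near [NeZero p] (ν : ℕ) (a b : ℕ → ZMod p) (s : ℕ) (h : a s = b s) :
    ∃ x : ℤ, -(p : ℤ) ^ s < x ∧ x < (p : ℤ) ^ s ∧
      dif p ν a b s ≡ x - (ν + 1) * (p : ℤ) ^ s [ZMOD (p : ℤ) ^ (s + 1)] := by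
  refine ⟨dsum p a s - dsum p (fun i => b i + ((ν + 1 : ℕ) : ZMod p)) s, ?_, ?_, ?_⟩
  · have := dsum_nonneg a s
    have := dsum_lt (fun i => b i + ((ν + 1 : ℕ) : ZMod p)) s
    linarith
  · have := dsum_lt a s
    have := dsum_nonneg (fun i => b i + ((ν + 1 : ℕ) : ZMod p)) s
    linarith
  · unfold dif
    rw [dsum_succ, dsum_succ, h]
    have h2 : ((b s).val : ℤ) - (((b s + ((ν + 1 : ℕ) : ZMod p)).val : ℕ) : ℤ) ≡ -(ν + 1 : ℤ)
        [ZMOD p] := by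
      rw [← ZMod.intCast_eq_intCast_iff]
      push_cast
      simp
    obtain ⟨t, ht⟩ := h2.dvd
    rw [Int.modEq_iff_dvd]
    refine ⟨t, ?_⟩
    rw [pow_succ]
    have h3 : -(ν + 1 : ℤ) - (((b s).val : ℤ) - (((b s + ((ν + 1 : ℕ) : ZMod p)).val : ℕ) : ℤ))
        = p * t := ht
    linear_combination (p : ℤ) ^ s * h3

/-- value of the label difference of a near edge. -/
theorem dif_val [NeZero p] (ν : ℕ) (a b : ℕ → ZMod p) (t σ₁ s σ : ℕ)
    (hlt : t < s ∨ (t = s ∧ σ₁ < σ)) (hσ : dif p ν a b t ≡ σ₁ [ZMOD (p : ℤ) ^ (t + 1)])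
    (hd : t < s → a s = b s) :
    ∃ w : ℤ, dif p ν a b s ≡ w [ZMOD (p : ℤ) ^ (s + 1)] ∧ -((ν + 2 : ℤ) * (p : ℤ) ^ s) < w ∧
      w < σ := by
  have hp : (0 : ℤ) < (p : ℤ) ^ s := by
    have : (0 : ℤ) < p := by exact_mod_cast Nat.pos_of_ne_zero (NeZero.ne p)
    positivity
  rcases hlt with h | ⟨rfl, h⟩
  · obtain ⟨x, hx1, hx2, hx3⟩ := dif_near ν a b s (hd h)
    refine ⟨_, hx3, by nlinarith, ?_⟩
    have h1 : (0 : ℤ) ≤ (ν : ℤ) * (p : ℤ) ^ s := by positivity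
    have h2 : (0 : ℤ) ≤ (σ : ℤ) := by positivity
    nlinarith
  · refine ⟨σ₁, hσ, ?_, by exact_mod_cast h⟩
    have h1 : (0 : ℤ) ≤ (ν : ℤ) * (p : ℤ) ^ t := by positivity
    have h2 : (0 : ℤ) ≤ (σ₁ : ℤ) := by positivity
    nlinarith

theorem not_cong {z M : ℤ} (h1 : 0 < z) (h2 : z < M) (h : (0 : ℤ) ≡ z [ZMOD M]) : False := by
  have := h.dvd
  rw [sub_zero] at this
  exact absurd (Int.le_of_dvd h1 this) (by omega)

/-- three-level exclusion, in terms of labels. -/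
theorem label_three [NeZero p] (ν : ℕ) (hν : 4 * ν + 4 ≤ p) (a b : ℕ → ZMod p) (t σ₁ s σ : ℕ)
    (hσs : σ < ν * p ^ s) (hlt : t < s ∨ (t = s ∧ σ₁ < σ))
    (h1 : dif p ν a b t ≡ σ₁ [ZMOD (p : ℤ) ^ (t + 1)]) (hd : t < s → a s = b s)
    (h2 : dif p ν a b s ≡ σ [ZMOD (p : ℤ) ^ (s + 1)]) : False := by
  obtain ⟨w, hw, hw1, hw2⟩ := dif_val ν a b t σ₁ s σ hlt h1 hd
  have h3 : (0 : ℤ) ≡ σ - w [ZMOD (p : ℤ) ^ (s + 1)] := by
    have := (hw.symm.trans h2).sub (Int.ModEq.refl w)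
    simpa using this
  have hp : (0 : ℤ) < (p : ℤ) ^ s := by
    have : (0 : ℤ) < p := by exact_mod_cast Nat.pos_of_ne_zero (NeZero.ne p)
    positivity
  refine not_cong (by linarith) ?_ h3
  have h4 : (σ : ℤ) < ν * (p : ℤ) ^ s := by exact_mod_cast hσs
  have h5 : (4 * ν + 4 : ℤ) * (p : ℤ) ^ s ≤ (p : ℤ) ^ (s + 1) := by
    rw [pow_succ, mul_comm ((p : ℤ) ^ s)]
    exact mul_le_mul_of_nonneg_right (by exact_mod_cast hν) hp.le
  have h6 : (0 : ℤ) ≤ (ν : ℤ) * (p : ℤ) ^ s := by positivity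
  nlinarith

/-- diagonal exclusion. -/
theorem label_diag [NeZero p] (ν : ℕ) (hν : 4 * ν + 4 ≤ p) (a a' b b' : ℕ → ZMod p)
    (t₁ σ₁ t₂ σ₂ s σ : ℕ) (hσs : σ < ν * p ^ s)
    (hlt₁ : t₁ < s ∨ (t₁ = s ∧ σ₁ < σ)) (hlt₂ : t₂ < s ∨ (t₂ = s ∧ σ₂ < σ))
    (h1 : dif p ν a b t₁ ≡ σ₁ [ZMOD (p : ℤ) ^ (t₁ + 1)]) (hd1 : t₁ < s → a s = b s)
    (h2 : dif p ν a' b' t₂ ≡ σ₂ [ZMOD (p : ℤ) ^ (t₂ + 1)]) (hd2 : t₂ < s → a' s = b' s)
    (h3 : dif p ν a' b s ≡ σ [ZMOD (p : ℤ) ^ (s + 1)])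
    (h4 : dif p ν a b' s ≡ σ [ZMOD (p : ℤ) ^ (s + 1)]) : False := by
  obtain ⟨w, hw, hw1, hw2⟩ := dif_val ν a b t₁ σ₁ s σ hlt₁ h1 hd1
  obtain ⟨w', hw', hw1', hw2'⟩ := dif_val ν a' b' t₂ σ₂ s σ hlt₂ h2 hd2
  have hsum : dif p ν a b s + dif p ν a' b' s = dif p ν a' b s + dif p ν a b' s := by
    unfold dif; ring
  have h5 : w + w' ≡ σ + σ [ZMOD (p : ℤ) ^ (s + 1)] := by
    have := (hw.add hw').symm
    rw [hsum] at this
    exact this.trans (h3.add h4)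
  have h6 : (0 : ℤ) ≡ σ + σ - (w + w') [ZMOD (p : ℤ) ^ (s + 1)] := by
    have := h5.sub (Int.ModEq.refl (w + w'))
    simpa using this
  have hp : (0 : ℤ) < (p : ℤ) ^ s := by
    have : (0 : ℤ) < p := by exact_mod_cast Nat.pos_of_ne_zero (NeZero.ne p)
    positivity
  refine not_cong (by linarith) ?_ h6
  have h7 : (σ : ℤ) < ν * (p : ℤ) ^ s := by exact_mod_cast hσs
  have h8 : (4 * ν + 4 : ℤ) * (p : ℤ) ^ s ≤ (p : ℤ) ^ (s + 1) := by
    rw [pow_succ, mul_comm ((p : ℤ) ^ s)]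
    exact mul_le_mul_of_nonneg_right (by exact_mod_cast hν) hp.le
  nlinarith

end Pool.Agent.Helper190.Carb
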