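import Pool.Agent.Helper190.Carb.Tow

set_option autoImplicit false

namespace Pool.Agent.Helper190.Carb

/-- block boundaries -/
def Bd (p ν : ℕ) : ℕ → ℕ
  | 0 => 0
  | s + 1 => Bd p ν s + 1 + ν * p ^ s

/-- height of the level `σ` of block `s` -/
def hgt (p ν s σ : ℕ) : ℕ := Bd p ν s + 2 + σ

section heights

variable {p ν : ℕ}

theorem Bd_mono : Monotone (Bd p ν) := by
  apply monotone_nat_of_le_succ
  intro n
  simp only [Bd]
  omega

theorem Bd_lt {s t : ℕ} (h : s < t) : Bd p ν s < Bd p ν t := by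
  have h1 : Bd p ν (s + 1) ≤ Bd p ν t := Bd_mono h
  simp only [Bd] at h1
  omega

theorem hgt_le {s t σ : ℕ} (hσ : σ < ν * p ^ s) (h : s < t) : hgt p ν s σ ≤ Bd p ν t := by
  have h1 : Bd p ν (s + 1) ≤ Bd p ν t := Bd_mono h
  simp only [Bd] at h1
  simp only [hgt]
  omega

theorem hgt_lt_iff {s t σ ρ : ℕ} (hσ : σ < ν * p ^ s) (hρ : ρ < ν * p ^ t) :
    hgt p ν s σ < hgt p ν t ρ ↔ (s < t ∨ (s = t ∧ σ < ρ)) := by
  rcases lt_trichotomy s t with h | rfl | h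
  · have := hgt_le (p := p) (ν := ν) hσ h
    have h2 : Bd p ν t < hgt p ν t ρ := by simp only [hgt]; omega
    constructor
    · intro _; exact Or.inl h
    · intro _; omega
  · simp [hgt]
  · have := hgt_le (p := p) (ν := ν) hρ h
    have h2 : Bd p ν s < hgt p ν s σ := by simp only [hgt]; omega
    constructor
    · intro h3; omega
    · rintro (h3 | ⟨h3, -⟩) <;> omega

theorem hgt_inj {s t σ ρ : ℕ} (hσ : σ < ν * p ^ s) (hρ : ρ < ν * p ^ t)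
    (h : hgt p ν s σ = hgt p ν t ρ) : s = t ∧ σ = ρ := by
  have h1 := (hgt_lt_iff (p := p) (ν := ν) hσ hρ).not.1 (by omega)
  have h2 := (hgt_lt_iff (p := p) (ν := ν) hρ hσ).not.1 (by omega)
  omega

end heights

variable {p ν S : ℕ} [Fact p.Prime] {L : Type} [Field L] [Algebra (ZMod p) L]

instance : NeZero p := ⟨(Fact.out : p.Prime).ne_zero⟩

namespace Tow

variable (T : Tow p (Bd p ν S) L)

/-- digits -/
def dg (ν : ℕ) {M : ℕ} (T : Tow p M L) (x : L) (i : ℕ) : ZMod p := T.D (Bd p ν i) x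

/-- class constant -/
def ec (p : ℕ) [Fact p.Prime] (L : Type) [Field L] [Algebra (ZMod p) L] (s : ℕ) : L :=
  algebraMap (ZMod p) L (s : ZMod p)

/-- bilinear value -/
def Q {M : ℕ} (T : Tow p M L) (s : ℕ) (k κ : L) : ZMod p := T.τ ((k + ec p L s) * (κ + ec p L s))

/-- prescribed value -/
def fv (p : ℕ) (u v : ZMod p) (s : ℕ) : ZMod p := u + v * ((s / p : ℕ) : ZMod p)

/-- The relation on the first coordinates. -/
structure Ed (u v : ZMod p) (s σ : ℕ) (k κ : L) : Prop where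
  hs : s < S
  hσ : σ < ν * p ^ s
  τk : T.τ k = 0
  τκ : T.τ κ = 0
  mem : k - κ ∈ T.E (hgt p ν s σ)
  ex : T.D (hgt p ν s σ - 1) (k - κ) ≠ 0
  lab : dif p ν (T.dg ν κ) (T.dg ν k) s ≡ σ [ZMOD (p : ℤ) ^ (s + 1)]
  q : T.Q s k κ = fv p u v s
  hyb : ∀ s' < s, (s' : ZMod p) = (s : ZMod p) →
    fv p u v s' ≠ T.Q s' (κ + T.π (hgt p ν s' (σ % p ^ (s' + 1))) (k - κ)) κ ∧
    fv p u v s' ≠ T.Q s' k (k - T.π (hgt p ν s' (σ % p ^ (s' + 1))) (k - κ))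

variable {T} {u v : ZMod p}

theorem Ed.hgt_le {s σ : ℕ} {k κ : L} (h : T.Ed u v s σ k κ) : hgt p ν s σ ≤ Bd p ν S :=
  Carb.hgt_le h.hσ h.hs

/-- the difference is not in lower fields. -/
theorem Ed.not_mem {s σ : ℕ} {k κ : L} (h : T.Ed u v s σ k κ) {m : ℕ} (hm : m < hgt p ν s σ) :
    k - κ ∉ T.E m := by
  intro hk
  apply h.ex
  refine T.D_vanish (j := m) ?_ (by omega) hk
  have := h.hgt_le
  omega

/-- digits of a near pair agree. -/
theorem Ed.dg_eq {s σ : ℕ} {k κ : L} (h : T.Ed u v s σ k κ) {i : ℕ} (hi : s < i) (hiS : i < S) :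
    T.dg ν κ i = T.dg ν k i := by
  have h1 : T.D (Bd p ν i) (k - κ) = 0 :=
    T.D_vanish (Bd_lt hiS) (Carb.hgt_le h.hσ hi) h.mem
  rw [map_sub, sub_eq_zero] at h1
  exact h1.symm

theorem dg_congr {s σ : ℕ} (hsS : s < S) {x y : L}
    (hxy : T.π (hgt p ν s σ) x = T.π (hgt p ν s σ) y) {i : ℕ} (hi : i ≤ s) :
    T.dg ν x i = T.dg ν y i := by
  refine T.D_congr (Bd_lt (lt_of_le_of_lt hi hsS)) ?_ hxy
  have : Bd p ν i ≤ Bd p ν s := Bd_mono hi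
  simp only [hgt]
  omega

omit [Fact p.Prime] in
theorem dif_congr_left (b : ℕ → ZMod p) {a a' : ℕ → ZMod p} {s : ℕ} (h : ∀ i, i ≤ s → a i = a' i) :
    dif p ν a b s = dif p ν a' b s := by
  unfold dif
  rw [dsum_congr (fun i hi => h i (by omega))]

omit [Fact p.Prime] in
theorem dif_congr_right (a : ℕ → ZMod p) {b b' : ℕ → ZMod p} {s : ℕ}
    (h : ∀ i, i ≤ s → b i = b' i) : dif p ν a b s = dif p ν a b' s := by
  unfold dif
  rw [dsum_congr (a := fun i => b i + ((ν + 1 : ℕ) : ZMod p))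
    (b := fun i => b' i + ((ν + 1 : ℕ) : ZMod p)) (fun i hi => by
      show b i + _ = b' i + _
      rw [h i (by omega)])]

/-- three levels, far row `k'`. -/
theorem no_three (hν : 4 * ν + 4 ≤ p) {k k' κ κ' : L} {sA σA sB σB sC σC sD σD : ℕ}
    (hA : T.Ed u v sA σA k κ) (hB : T.Ed u v sB σB k κ')
    (hC : T.Ed u v sC σC k' κ) (hD : T.Ed u v sD σD k' κ')
    (h1 : hgt p ν sA σA < hgt p ν sB σB) (h2 : hgt p ν sB σB ≤ hgt p ν sC σC)
    (h3 : hgt p ν sC σC = hgt p ν sD σD) : False := by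
  obtain ⟨rfl, rfl⟩ := hgt_inj hC.hσ hD.hσ h3
  have h4 : sB ≤ sC := by
    by_contra hcon
    have := (hgt_lt_iff (p := p) (ν := ν) hC.hσ hB.hσ).2 (Or.inl (by omega))
    omega
  have h5 : dif p ν (T.dg ν κ) (T.dg ν k) sB ≡ dif p ν (T.dg ν κ') (T.dg ν k) sB
      [ZMOD (p : ℤ) ^ (sB + 1)] := by
    have e1 : dif p ν (T.dg ν κ) (T.dg ν k') sC ≡ dif p ν (T.dg ν κ') (T.dg ν k') sC
        [ZMOD (p : ℤ) ^ (sC + 1)] := hC.lab.trans hD.lab.symm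
    have e2 : dif p ν (T.dg ν κ) (T.dg ν k') sC ≡ dif p ν (T.dg ν κ') (T.dg ν k') sC
        [ZMOD (p : ℤ) ^ (sB + 1)] := e1.of_dvd (pow_dvd_pow _ (by omega))
    have e3 := ((dif_mod ν (T.dg ν κ) (T.dg ν k') h4).symm.trans e2).trans
      (dif_mod ν (T.dg ν κ') (T.dg ν k') h4)
    unfold dif at e3 ⊢
    have e4 := e3.add (Int.ModEq.refl
      (dsum p (fun i => T.dg ν k' i + ((ν + 1 : ℕ) : ZMod p)) (sB + 1)))
    simp only [sub_add_cancel] at e4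
    exact e4.sub (Int.ModEq.refl _)
  exact label_three ν hν (T.dg ν κ) (T.dg ν k) sA σA sB σB hB.hσ
    ((hgt_lt_iff (p := p) (ν := ν) hA.hσ hB.hσ).1 h1) hA.lab
    (fun h => hA.dg_eq h hB.hs) (h5.trans hB.lab)

/-- three levels, far column `κ'`. -/
theorem no_three' (hν : 4 * ν + 4 ≤ p) {k k' κ κ' : L} {sA σA sB σB sC σC sD σD : ℕ}
    (hA : T.Ed u v sA σA k κ) (hB : T.Ed u v sB σB k' κ)
    (hC : T.Ed u v sC σC k κ') (hD : T.Ed u v sD σD k' κ')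
    (h1 : hgt p ν sA σA < hgt p ν sB σB) (h2 : hgt p ν sB σB ≤ hgt p ν sC σC)
    (h3 : hgt p ν sC σC = hgt p ν sD σD) : False := by
  obtain ⟨rfl, rfl⟩ := hgt_inj hC.hσ hD.hσ h3
  have h4 : sB ≤ sC := by
    by_contra hcon
    have := (hgt_lt_iff (p := p) (ν := ν) hC.hσ hB.hσ).2 (Or.inl (by omega))
    omega
  have h5 : dif p ν (T.dg ν κ) (T.dg ν k) sB ≡ dif p ν (T.dg ν κ) (T.dg ν k') sB
      [ZMOD (p : ℤ) ^ (sB + 1)] := by
    have e1 : dif p ν (T.dg ν κ') (T.dg ν k) sC ≡ dif p ν (T.dg ν κ') (T.dg ν k') sC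
        [ZMOD (p : ℤ) ^ (sC + 1)] := hC.lab.trans hD.lab.symm
    have e2 := e1.of_dvd (pow_dvd_pow (p : ℤ) (show sB + 1 ≤ sC + 1 by omega))
    have e3 := ((dif_mod ν (T.dg ν κ') (T.dg ν k) h4).symm.trans e2).trans
      (dif_mod ν (T.dg ν κ') (T.dg ν k') h4)
    unfold dif at e3 ⊢
    have e4 := (Int.ModEq.refl (dsum p (T.dg ν κ') (sB + 1))).sub e3
    simp only [sub_sub_cancel] at e4
    exact (Int.ModEq.refl _).sub e4
  exact label_three ν hν (T.dg ν κ) (T.dg ν k) sA σA sB σB hB.hσ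
    ((hgt_lt_iff (p := p) (ν := ν) hA.hσ hB.hσ).1 h1) hA.lab
    (fun h => hA.dg_eq h hB.hs) (h5.trans hB.lab)

/-- diagonal pattern. -/
theorem no_diag (hν : 4 * ν + 4 ≤ p) {k k' κ κ' : L} {sA σA sB σB sC σC sD σD : ℕ}
    (hA : T.Ed u v sA σA k κ) (hB : T.Ed u v sB σB k' κ')
    (hC : T.Ed u v sC σC k κ') (hD : T.Ed u v sD σD k' κ)
    (h1 : hgt p ν sA σA < hgt p ν sC σC) (h2 : hgt p ν sB σB < hgt p ν sC σC)
    (h3 : hgt p ν sC σC = hgt p ν sD σD) : False := by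
  obtain ⟨rfl, rfl⟩ := hgt_inj hC.hσ hD.hσ h3
  exact label_diag ν hν (T.dg ν κ) (T.dg ν κ') (T.dg ν k) (T.dg ν k') sA σA sB σB sC σC hC.hσ
    ((hgt_lt_iff (p := p) (ν := ν) hA.hσ hC.hσ).1 h1)
    ((hgt_lt_iff (p := p) (ν := ν) hB.hσ hC.hσ).1 h2)
    hA.lab (fun h => hA.dg_eq h hC.hs) hB.lab (fun h => hB.dg_eq h hC.hs) hC.lab hD.lab

end Tow

end Pool.Agent.Helper190.Carb
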