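import Mathlib

set_option autoImplicit false

namespace Pool.Agent.Helper190.Carb

theorem exists_ext (L : Type) [Field L] [Fintype L] :
    ∃ (L' : Type) (_ : Field L') (_ : Fintype L') (_ : Algebra L L') (θ : L'),
      θ ∉ Set.range (algebraMap L L') := by
  classical
  haveI : Infinite (AlgebraicClosure L) := IsAlgClosed.instInfinite
  obtain ⟨a, ha⟩ := (Set.finite_range (algebraMap L (AlgebraicClosure L))).exists_notMem
  have hint : IsIntegral L a := (AlgebraicClosure.isAlgebraic L).isAlgebraic a |>.isIntegral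
  haveI : FiniteDimensional L (IntermediateField.adjoin L {a}) :=
    IntermediateField.adjoin.finiteDimensional hint
  haveI : Finite (IntermediateField.adjoin L {a}) :=
    Module.finite_of_finite L
  refine ⟨IntermediateField.adjoin L {a}, inferInstance, Fintype.ofFinite _, inferInstance,
    IntermediateField.AdjoinSimple.gen L a, ?_⟩
  rintro ⟨b, hb⟩
  apply ha
  refine ⟨b, ?_⟩
  have := congrArg (algebraMap (IntermediateField.adjoin L {a}) (AlgebraicClosure L)) hb
  rw [IntermediateField.AdjoinSimple.algebraMap_gen] at this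
  rw [← this]
  rfl

theorem exists_proj (L L' : Type) [Field L] [Field L'] [Algebra L L'] (θ : L')
    (hθ : θ ∉ Set.range (algebraMap L L')) :
    ∃ (ρ : L' →ₗ[L] L) (d z : L'), ρ 1 = 1 ∧ ρ d = 0 ∧ ρ z = 0 ∧ ρ (d * z) = 1 := by
  obtain ⟨ρ, hρ⟩ := LinearMap.exists_leftInverse_of_injective (Algebra.linearMap L L')
    (LinearMap.ker_eq_bot.2 (algebraMap L L').injective)
  have h1 : ∀ a, ρ (algebraMap L L' a) = a := fun a => by
    have := LinearMap.congr_fun hρ a
    simpa using this
  have h11 : ρ 1 = 1 := by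
    have := h1 1
    rwa [map_one] at this
  set d : L' := θ - algebraMap L L' (ρ θ) with hd
  have hd0 : d ≠ 0 := by
    intro h
    apply hθ
    exact ⟨ρ θ, (sub_eq_zero.1 h).symm⟩
  have hρd : ρ d = 0 := by
    rw [hd, map_sub, h1, sub_self]
  refine ⟨ρ, d, d⁻¹ - algebraMap L L' (ρ d⁻¹), h11, hρd, ?_, ?_⟩
  · rw [map_sub, h1, sub_self]
  · have : d * (d⁻¹ - algebraMap L L' (ρ d⁻¹)) = 1 - (ρ d⁻¹) • d := by
      rw [mul_sub, mul_inv_cancel₀ hd0, Algebra.smul_def, mul_comm d]
    rw [this, map_sub, h11, map_smul, hρd]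
    simp

/-- TARGET: existence of a tower of finite fields with compatible projections. -/
theorem exists_tower (p : ℕ) [Fact p.Prime] (M : ℕ) :
    ∃ (L : Type) (_ : Field L) (_ : Fintype L) (_ : Algebra (ZMod p) L)
      (E : ℕ → Subfield L) (π : ℕ → L →+ L) (τ : L →+ ZMod p) (δ ζ : ℕ → L),
      Monotone E ∧ (∀ j x, π j x ∈ E j) ∧ (∀ j x, x ∈ E j → π j x = x) ∧
      (∀ j a x, a ∈ E j → π j (a * x) = a * π j x) ∧
      (∀ i j x, i ≤ j → π i (π j x) = π i x) ∧
      (∀ x, algebraMap (ZMod p) L (τ x) = π 0 x) ∧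
      (∀ h, h < M → δ h ∈ E (h + 1) ∧ ζ h ∈ E (h + 1) ∧ π h (δ h) = 0 ∧ π h (ζ h) = 0 ∧
        τ (δ h * ζ h) = 1) ∧ E M = ⊤ := by
  induction M with
  | zero =>
    refine ⟨ZMod p, inferInstance, inferInstance, Algebra.id _, fun _ => ⊤,
      fun _ => AddMonoidHom.id _, AddMonoidHom.id _, fun _ => 0, fun _ => 0, ?_, ?_, ?_, ?_, ?_,
      ?_, ?_, rfl⟩
    · intro i j _
      exact le_refl _
    · intro j x
      exact Subfield.mem_top _
    · intro j x _
      rfl
    · intro j a x _
      rfl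
    · intro i j x _
      rfl
    · intro x
      rfl
    · intro h hh
      exact absurd hh (Nat.not_lt_zero _)
  | succ M ih =>
    obtain ⟨L, iF, iFt, iA, E, π, τ, δ, ζ, hE, h1, h2, h3, h4, h5, h6, h7⟩ := ih
    obtain ⟨L', iF', iFt', iA', θ, hθ⟩ := exists_ext L
    obtain ⟨ρ, d, z, hρ1, hρd, hρz, hρdz⟩ := exists_proj L L' θ hθ
    have hρa : ∀ a, ρ (algebraMap L L' a) = a := by
      intro a
      have : algebraMap L L' a = a • (1 : L') := by rw [Algebra.smul_def, mul_one]
      rw [this, map_smul, hρ1, smul_eq_mul, mul_one]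
    have hρax : ∀ a x, ρ (algebraMap L L' a * x) = a * ρ x := by
      intro a x
      rw [← Algebra.smul_def, map_smul, smul_eq_mul]
    have hτ1 : τ 1 = 1 := by
      have h8 := h5 1
      rw [h2 0 1 (one_mem _)] at h8
      apply (algebraMap (ZMod p) L).injective
      rw [h8, map_one]
    classical
    let alg : Algebra (ZMod p) L' := ((algebraMap L L').comp (algebraMap (ZMod p) L)).toAlgebra
    let E' : ℕ → Subfield L' := fun j => if j ≤ M then (E j).map (algebraMap L L') else ⊤
    let π' : ℕ → L' →+ L' := fun j =>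
      if j ≤ M then (algebraMap L L').toAddMonoidHom.comp ((π j).comp ρ.toAddMonoidHom)
      else AddMonoidHom.id _
    have hE'1 : ∀ j, j ≤ M → E' j = (E j).map (algebraMap L L') := fun j hj => if_pos hj
    have hE'2 : ∀ j, ¬ j ≤ M → E' j = ⊤ := fun j hj => if_neg hj
    have hπ'1 : ∀ j, j ≤ M → ∀ x, π' j x = algebraMap L L' (π j (ρ x)) := by
      intro j hj x
      have : π' j = (algebraMap L L').toAddMonoidHom.comp ((π j).comp ρ.toAddMonoidHom) :=
        if_pos hj
      rw [this]; rfl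
    have hπ'2 : ∀ j, ¬ j ≤ M → ∀ x, π' j x = x := by
      intro j hj x
      have : π' j = AddMonoidHom.id _ := if_neg hj
      rw [this]; rfl
    refine ⟨L', iF', iFt', alg, E', π', τ.comp ρ.toAddMonoidHom,
      fun h => if h < M then algebraMap L L' (δ h) else d,
      fun h => if h < M then algebraMap L L' (ζ h) else z, ?_, ?_, ?_, ?_, ?_, ?_, ?_, ?_⟩
    · intro i j hij
      by_cases hj : j ≤ M
      · rw [hE'1 j hj, hE'1 i (hij.trans hj)]
        intro x hx
        obtain ⟨a, ha, rfl⟩ := hx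
        exact ⟨a, hE hij ha, rfl⟩
      · rw [hE'2 j hj]
        exact le_top
    · intro j x
      by_cases hj : j ≤ M
      · rw [hE'1 j hj, hπ'1 j hj]
        exact ⟨_, h1 j _, rfl⟩
      · rw [hE'2 j hj]
        exact Subfield.mem_top _
    · intro j x hx
      by_cases hj : j ≤ M
      · rw [hE'1 j hj] at hx
        obtain ⟨a, ha, rfl⟩ := hx
        rw [hπ'1 j hj, hρa, h2 j a ha]
      · exact hπ'2 j hj x
    · intro j a x ha
      by_cases hj : j ≤ M
      · rw [hE'1 j hj] at ha
        obtain ⟨b, hb, rfl⟩ := ha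
        rw [hπ'1 j hj, hπ'1 j hj, hρax, h3 j b _ hb, map_mul]
      · rw [hπ'2 j hj, hπ'2 j hj]
    · intro i j x hij
      by_cases hj : j ≤ M
      · rw [hπ'1 j hj, hπ'1 i (hij.trans hj), hπ'1 i (hij.trans hj), hρa, h4 i j _ hij]
      · rw [hπ'2 j hj]
    · intro x
      rw [hπ'1 0 (Nat.zero_le _), ← h5]
      rfl
    · intro h hh
      by_cases hM : h < M
      · obtain ⟨k1, k2, k3, k4, k5⟩ := h6 h hM
        simp only [if_pos hM]
        rw [hE'1 (h + 1) hM, hπ'1 h hM.le, hπ'1 h hM.le, hρa, hρa, k3, k4, map_zero]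
        refine ⟨⟨_, k1, rfl⟩, ⟨_, k2, rfl⟩, rfl, rfl, ?_⟩
        have : (τ.comp ρ.toAddMonoidHom) (algebraMap L L' (δ h) * algebraMap L L' (ζ h)) =
            τ (ρ (algebraMap L L' (δ h) * algebraMap L L' (ζ h))) := rfl
        rw [this, ← map_mul, hρa, k5]
      · have hhM : h = M := by omega
        subst hhM
        simp only [if_neg hM]
        rw [hE'2 (h + 1) (by omega), hπ'1 h le_rfl, hπ'1 h le_rfl, hρd, hρz, map_zero, map_zero]
        refine ⟨Subfield.mem_top _, Subfield.mem_top _, rfl, rfl, ?_⟩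
        have : (τ.comp ρ.toAddMonoidHom) (d * z) = τ (ρ (d * z)) := rfl
        rw [this, hρdz, hτ1]
    · exact hE'2 (M + 1) (by omega)

end Pool.Agent.Helper190.Carb
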