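import Mathlib

set_option autoImplicit false
open MeasureTheory

namespace Pool.Agent.Helper190.Carb

theorem geom_idx {N : ℕ} (hN : 0 < N) {a a' : ℕ} {x x' : ℝ} (h1 : (a : ℝ) / N < x)
    (h2 : x ≤ x') (h3 : x' < ((a' : ℝ) + 1) / N) : a ≤ a' := by
  have hN' : (0 : ℝ) < N := by exact_mod_cast hN
  have h4 : (a : ℝ) / N < ((a' : ℝ) + 1) / N := by linarith
  rw [div_lt_div_iff_of_pos_right hN'] at h4
  have h5 : a < a' + 1 := by exact_mod_cast h4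
  omega

/-- TARGET: geometric reduction (blow up a finite set of cells to open squares). -/
theorem geom
    (h : ∀ C : ℝ, 0 < C → ∃ N : ℕ, 0 < N ∧ ∃ S : Finset (ℕ × ℕ),
      (∀ a ∈ S, a.1 < N ∧ a.2 < N) ∧ C * (N : ℝ) ^ 3 ≤ (S.card : ℝ) ^ 2 ∧
      ∀ i i' j j' : ℕ, (i, j) ∈ S → (i, j') ∈ S → (i', j) ∈ S → (i', j') ∈ S →
        i ≤ i' → j ≤ j' → (i' - i + 1) * (j' - j + 1) ≤ N) :
    ¬ (∃ c : ℝ, 0 < c ∧ ∀ A : Set (ℝ × ℝ), IsOpen A →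
      A ⊆ Set.Icc (0 : ℝ) 1 ×ˢ Set.Icc (0 : ℝ) 1 → A.Nonempty →
      ∃ x₁ x₂ y₁ y₂ : ℝ, x₁ < x₂ ∧ y₁ < y₂ ∧
        (x₁, y₁) ∈ A ∧ (x₁, y₂) ∈ A ∧ (x₂, y₁) ∈ A ∧ (x₂, y₂) ∈ A ∧
        c * ((volume A).toReal) ^ 2 ≤ (x₂ - x₁) * (y₂ - y₁)) := by
  rintro ⟨c, hc, hP⟩
  obtain ⟨N, hN, S, hSb, hScard, hS⟩ := h (1 / c) (by positivity)
  have hN' : (0 : ℝ) < N := by exact_mod_cast hN
  set cell : ℕ × ℕ → Set (ℝ × ℝ) := fun a =>
    Set.Ioo ((a.1 : ℝ) / N) (((a.1 : ℝ) + 1) / N) ×ˢ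
      Set.Ioo ((a.2 : ℝ) / N) (((a.2 : ℝ) + 1) / N) with hcell
  have hcard0 : 0 < (S.card : ℝ) := by
    by_contra hcon
    have h0 : (S.card : ℝ) = 0 := le_antisymm (not_lt.mp hcon) (Nat.cast_nonneg _)
    rw [h0] at hScard
    have : 0 < 1 / c * (N : ℝ) ^ 3 := by positivity
    linarith
  have hSne : S.Nonempty := by
    rw [← Finset.card_pos]
    exact_mod_cast hcard0
  have hopen : ∀ a, IsOpen (cell a) := fun a => isOpen_Ioo.prod isOpen_Ioo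
  have hlt : ∀ k : ℕ, (k : ℝ) / N < ((k : ℝ) + 1) / N := fun k => by
    rw [div_lt_div_iff_of_pos_right hN']
    linarith
  have hvol : ∀ a, volume (cell a) = ENNReal.ofReal (1 / (N : ℝ) ^ 2) := by
    intro a
    have e : ∀ k : ℕ, ((k : ℝ) + 1) / N - (k : ℝ) / N = 1 / N := fun k => by
      rw [← sub_div]; congr 1; ring
    rw [hcell, Measure.volume_eq_prod, Measure.prod_prod, Real.volume_Ioo, Real.volume_Ioo, e, e,
      ← ENNReal.ofReal_mul (by positivity)]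
    congr 1
    field_simp
  have hdisj : Set.PairwiseDisjoint (S : Set (ℕ × ℕ)) cell := by
    intro a _ b _ hab
    rw [Function.onFun, Set.disjoint_left]
    rintro ⟨x, y⟩ ⟨hx, hy⟩ ⟨hx', hy'⟩
    apply hab
    ext
    · exact le_antisymm (geom_idx hN hx.1 le_rfl hx'.2) (geom_idx hN hx'.1 le_rfl hx.2)
    · exact le_antisymm (geom_idx hN hy.1 le_rfl hy'.2) (geom_idx hN hy'.1 le_rfl hy.2)
  set A : Set (ℝ × ℝ) := ⋃ a ∈ S, cell a with hA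
  have hAopen : IsOpen A := isOpen_biUnion fun a _ => hopen a
  have hAvol : (volume A).toReal = S.card * (1 / (N : ℝ) ^ 2) := by
    rw [hA, measure_biUnion_finset hdisj fun a _ => (hopen a).measurableSet]
    simp only [hvol]
    rw [Finset.sum_const, nsmul_eq_mul, ENNReal.toReal_mul, ENNReal.toReal_natCast,
      ENNReal.toReal_ofReal (by positivity)]
  have hAsub : A ⊆ Set.Icc (0 : ℝ) 1 ×ˢ Set.Icc (0 : ℝ) 1 := by
    rw [hA]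
    apply Set.iUnion₂_subset
    rintro a ha ⟨x, y⟩ ⟨hx, hy⟩
    obtain ⟨h1, h2⟩ := hSb a ha
    have e : ∀ k : ℕ, k < N → ((k : ℝ) + 1) / N ≤ 1 := fun k hk => by
      rw [div_le_one hN']
      exact_mod_cast hk
    have e0 : ∀ k : ℕ, (0 : ℝ) ≤ (k : ℝ) / N := fun k => by positivity
    exact ⟨⟨(e0 _).trans hx.1.le, hx.2.le.trans (e _ h1)⟩,
      ⟨(e0 _).trans hy.1.le, hy.2.le.trans (e _ h2)⟩⟩
  have hAne : A.Nonempty := by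
    obtain ⟨a, ha⟩ := hSne
    obtain ⟨x, hx⟩ := exists_between (hlt a.1)
    obtain ⟨y, hy⟩ := exists_between (hlt a.2)
    refine ⟨(x, y), ?_⟩
    rw [hA]
    exact Set.mem_biUnion ha ⟨hx, hy⟩
  obtain ⟨x₁, x₂, y₁, y₂, hx, hy, h11, h12, h21, h22, hle⟩ := hP A hAopen hAsub hAne
  have hmem : ∀ x y : ℝ, (x, y) ∈ A → ∃ a ∈ S, (x, y) ∈ cell a := by
    intro x y hxy
    rw [hA] at hxy
    simpa using hxy
  obtain ⟨⟨i, j⟩, hijS, hij⟩ := hmem _ _ h11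
  obtain ⟨⟨i₂, j'⟩, hij'S, hij'⟩ := hmem _ _ h12
  obtain ⟨⟨i', j₂⟩, hi'jS, hi'j⟩ := hmem _ _ h21
  obtain ⟨⟨i₃, j₃⟩, hi'j'S, hi'j'⟩ := hmem _ _ h22
  have q1 : i₂ = i := le_antisymm (geom_idx hN hij'.1.1 le_rfl hij.1.2)
    (geom_idx hN hij.1.1 le_rfl hij'.1.2)
  have q2 : j₂ = j := le_antisymm (geom_idx hN hi'j.2.1 le_rfl hij.2.2)
    (geom_idx hN hij.2.1 le_rfl hi'j.2.2)
  have q3 : i₃ = i' := le_antisymm (geom_idx hN hi'j'.1.1 le_rfl hi'j.1.2)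
    (geom_idx hN hi'j.1.1 le_rfl hi'j'.1.2)
  have q4 : j₃ = j' := le_antisymm (geom_idx hN hi'j'.2.1 le_rfl hij'.2.2)
    (geom_idx hN hij'.2.1 le_rfl hi'j'.2.2)
  subst q1 q2 q3 q4
  have hii : i₂ ≤ i₃ := geom_idx hN hij.1.1 hx.le hi'j.1.2
  have hjj : j₂ ≤ j₃ := geom_idx hN hij.2.1 hy.le hij'.2.2
  have hbound := hS i₂ i₃ j₂ j₃ hijS hij'S hi'jS hi'j'S hii hjj
  have b1 : x₂ - x₁ < ((i₃ - i₂ + 1 : ℕ) : ℝ) / N := by
    have f1 := hi'j.1.2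
    have f2 := hij.1.1
    simp only at f1 f2
    push_cast [Nat.cast_sub hii]
    have : ((i₃ : ℝ) - i₂ + 1) / N = ((i₃ : ℝ) + 1) / N - (i₂ : ℝ) / N := by
      rw [← sub_div]; congr 1; ring
    rw [this]
    linarith
  have b2 : y₂ - y₁ < ((j₃ - j₂ + 1 : ℕ) : ℝ) / N := by
    have f1 := hij'.2.2
    have f2 := hij.2.1
    simp only at f1 f2
    push_cast [Nat.cast_sub hjj]
    have : ((j₃ : ℝ) - j₂ + 1) / N = ((j₃ : ℝ) + 1) / N - (j₂ : ℝ) / N := by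
      rw [← sub_div]; congr 1; ring
    rw [this]
    linarith
  have b3 : (x₂ - x₁) * (y₂ - y₁) < 1 / N := by
    have g1 : (x₂ - x₁) * (y₂ - y₁) <
        (((i₃ - i₂ + 1 : ℕ) : ℝ) / N) * (((j₃ - j₂ + 1 : ℕ) : ℝ) / N) :=
      mul_lt_mul'' b1 b2 (by linarith) (by linarith)
    have g2 : (((i₃ - i₂ + 1 : ℕ) : ℝ) / N) * (((j₃ - j₂ + 1 : ℕ) : ℝ) / N) =
        (((i₃ - i₂ + 1) * (j₃ - j₂ + 1) : ℕ) : ℝ) / (N : ℝ) ^ 2 := by
      push_cast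
      field_simp
    have g3 : (((i₃ - i₂ + 1) * (j₃ - j₂ + 1) : ℕ) : ℝ) / (N : ℝ) ^ 2 ≤ (N : ℝ) / (N : ℝ) ^ 2 :=
      div_le_div_of_nonneg_right (by exact_mod_cast hbound) (by positivity)
    have g4 : (N : ℝ) / (N : ℝ) ^ 2 = 1 / N := by field_simp
    linarith
  have b4 : 1 / (N : ℝ) ≤ c * ((volume A).toReal) ^ 2 := by
    rw [hAvol]
    have g1 : c * ((S.card : ℝ) * (1 / (N : ℝ) ^ 2)) ^ 2 =
        c * (S.card : ℝ) ^ 2 / (N : ℝ) ^ 4 := by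
      field_simp
    have g2 : c * (1 / c * (N : ℝ) ^ 3) ≤ c * (S.card : ℝ) ^ 2 :=
      mul_le_mul_of_nonneg_left hScard hc.le
    have g3 : c * (1 / c * (N : ℝ) ^ 3) = (N : ℝ) ^ 3 := by field_simp
    rw [g3] at g2
    rw [g1]
    have g4 : 1 / (N : ℝ) = (N : ℝ) ^ 3 / (N : ℝ) ^ 4 := by field_simp
    rw [g4]
    exact div_le_div_of_nonneg_right g2 (by positivity)
  linarith

end Pool.Agent.Helper190.Carb
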