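import Mathlib

set_option autoImplicit false

namespace Pool.Agent.Helper190.Carb

theorem chain_order_aux {X : Type} [AddCommGroup X] [Fintype X]
    (V : ℕ → AddSubgroup X) (hV : Monotone V) (k : ℕ) :
    ∃ f : X → ℕ, (∀ x ∈ V k, ∀ y ∈ V k, f x = f y → x = y) ∧ (∀ x ∈ V k, f x < Nat.card (V k)) ∧
      ∀ l ≤ k, ∀ x ∈ V k, ∀ y ∈ V k, x - y ∈ V l → f x < f y + Nat.card (V l) := by
  classical
  induction k with
  | zero =>
    set e := Finite.equivFin (V 0) with he
    have hval : ∀ x (hx : x ∈ V 0), (if h : x ∈ V 0 then ((e ⟨x, h⟩ : Fin _) : ℕ) else 0) < Nat.card (V 0) := by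
      intro x hx
      rw [dif_pos hx]; exact (e ⟨x, hx⟩).2
    refine ⟨fun x => if h : x ∈ V 0 then ((e ⟨x, h⟩ : Fin _) : ℕ) else 0, ?_, hval, ?_⟩
    · intro x hx y hy hxy
      simp only [dif_pos hx, dif_pos hy] at hxy
      have := e.injective (Fin.ext hxy)
      exact congrArg Subtype.val this
    · intro l hl x hx y hy hxy
      have hl0 : l = 0 := by omega
      subst hl0
      exact lt_of_lt_of_le (hval x hx) (Nat.le_add_left _ _)
  | succ k ih =>
    obtain ⟨f, hinj, hval, hdiff⟩ := ih
    have hle : V k ≤ V (k + 1) := hV (Nat.le_succ k)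
    set H := V k with hH
    set G := V (k + 1) with hG
    set K := H.addSubgroupOf G with hK
    set e := Finite.equivFin (G ⧸ K) with he
    have hcard : Nat.card (G ⧸ K) * Nat.card H = Nat.card G := by
      have h1 : Nat.card K = Nat.card H := Nat.card_congr (AddSubgroup.addSubgroupOfEquivOfLe hle).toEquiv
      rw [← h1, mul_comm]
      exact K.card_mul_index
    set num : X → ℕ := fun x => if h : x ∈ G then ((e (QuotientAddGroup.mk ⟨x, h⟩) : Fin _) : ℕ) else 0 with hnum
    have hnumlt : ∀ x ∈ G, num x < Nat.card (G ⧸ K) := by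
      intro x hx
      simp only [hnum, dif_pos hx]
      exact (e _).2
    have hnumeq : ∀ x ∈ G, ∀ y ∈ G, (num x = num y ↔ x - y ∈ H) := by
      intro x hx y hy
      simp only [hnum, dif_pos hx, dif_pos hy]
      rw [Fin.val_inj, e.injective.eq_iff, eq_comm, QuotientAddGroup.eq, AddSubgroup.mem_addSubgroupOf]
      have : ((-(⟨y, hy⟩ : G) + ⟨x, hx⟩ : G) : X) = x - y := by
        push_cast; abel
      rw [this]
    set rep : X → X := fun x => ((QuotientAddGroup.mk x : X ⧸ H)).out with hrep
    have hrep1 : ∀ x, x - rep x ∈ H := by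
      intro x
      have h1 : (QuotientAddGroup.mk (rep x) : X ⧸ H) = QuotientAddGroup.mk x := Quotient.out_eq _
      rw [QuotientAddGroup.eq] at h1
      have : x - rep x = -rep x + x := by abel
      rw [this]; exact h1
    have hrep2 : ∀ x y, x - y ∈ H → rep x = rep y := by
      intro x y hxy
      have h1 : (QuotientAddGroup.mk y : X ⧸ H) = QuotientAddGroup.mk x := by
        rw [QuotientAddGroup.eq]
        have : -y + x = x - y := by abel
        rw [this]; exact hxy
      simp only [hrep, h1]
    have hlt : ∀ x ∈ G, num x * Nat.card H + f (x - rep x) < Nat.card G := by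
      intro x hx
      have h1 := hnumlt x hx
      have h2 := hval _ (hrep1 x)
      calc num x * Nat.card H + f (x - rep x) < num x * Nat.card H + Nat.card H := by omega
        _ = (num x + 1) * Nat.card H := by ring
        _ ≤ Nat.card (G ⧸ K) * Nat.card H := Nat.mul_le_mul_right _ h1
        _ = Nat.card G := hcard
    refine ⟨fun x => num x * Nat.card H + f (x - rep x), ?_, hlt, ?_⟩
    · intro x hx y hy hxy
      have h1 := hval _ (hrep1 x)
      have h2 := hval _ (hrep1 y)
      simp only at hxy
      have h3 : num x = num y := by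
        have a1 : (num x * Nat.card H + f (x - rep x)) / Nat.card H = num x := by
          rw [mul_comm, Nat.mul_add_div (by omega), Nat.div_eq_of_lt h1, add_zero]
        have a2 : (num y * Nat.card H + f (y - rep y)) / Nat.card H = num y := by
          rw [mul_comm, Nat.mul_add_div (by omega), Nat.div_eq_of_lt h2, add_zero]
        rw [← a1, ← a2, hxy]
      have h4 : f (x - rep x) = f (y - rep y) := by
        rw [h3] at hxy; omega
      have h5 := (hnumeq x hx y hy).mp h3
      have h6 := hrep2 x y h5
      have h7 := hinj _ (hrep1 x) _ (hrep1 y) h4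
      rw [h6] at h7
      exact sub_left_inj.mp h7
    · intro l hl x hx y hy hxy
      rcases Nat.lt_or_ge l (k + 1) with hl' | hl'
      · have hlk : l ≤ k := by omega
        have hxyH : x - y ∈ H := hV hlk hxy
        have h3 := (hnumeq x hx y hy).mpr hxyH
        have h6 := hrep2 x y hxyH
        have h7 : (x - rep x) - (y - rep y) ∈ V l := by
          rw [h6]
          have : (x - rep y) - (y - rep y) = x - y := by abel
          rw [this]; exact hxy
        have h8 := hdiff l hlk _ (hrep1 x) _ (hrep1 y) h7
        simp only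
        rw [h3]; omega
      · have hlk : l = k + 1 := by omega
        subst hlk
        exact lt_of_lt_of_le (hlt x hx) (Nat.le_add_left _ _)

/-- TARGET: numbering of a finite abelian group adapted to a chain of subgroups. -/
theorem chain_order {X : Type} [AddCommGroup X] [Fintype X] (n : ℕ)
    (V : ℕ → AddSubgroup X) (hV : Monotone V) (htop : V n = ⊤) :
    ∃ ι : X → ℕ, Function.Injective ι ∧ (∀ x, ι x < Fintype.card X) ∧
      ∀ k ≤ n, ∀ x y : X, x - y ∈ V k → ι x < ι y + Nat.card (V k) := by
  obtain ⟨f, h1, h2, h3⟩ := chain_order_aux V hV n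
  have hmem : ∀ x : X, x ∈ V n := fun x => by rw [htop]; exact AddSubgroup.mem_top x
  have hc : Nat.card (V n) = Fintype.card X := by
    rw [htop, AddSubgroup.card_top, Nat.card_eq_fintype_card]
  refine ⟨f, fun x y hxy => h1 x (hmem x) y (hmem y) hxy, fun x => ?_, fun k hk x y hxy => ?_⟩
  · rw [← hc]; exact h2 x (hmem x)
  · exact h3 k hk x (hmem x) y (hmem y) hxy

end Pool.Agent.Helper190.Carb
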