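import Pool.Agent.Helper190.Carb.Size
import Pool.Agent.Helper190.Carb.Order
import Pool.Agent.Helper190.Carb.Exist

set_option autoImplicit false

namespace Pool.Agent.Helper190.Carb

open Finset Classical

namespace Tow

section chain

variable {p M : ℕ} [Fact p.Prime] {L : Type} [Field L] [Fintype L] [Algebra (ZMod p) L]

variable (T : Tow p M L)

/-- the vertex group -/
def XS : AddSubgroup (L × L) where
  carrier := {x | T.τ x.1 = 0 ∧ T.τ x.2 = 0}
  zero_mem' := by simp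
  add_mem' := by
    intro a b ha hb
    exact ⟨by rw [Prod.fst_add, map_add, ha.1, hb.1, add_zero],
      by rw [Prod.snd_add, map_add, ha.2, hb.2, add_zero]⟩
  neg_mem' := by
    intro a ha
    exact ⟨by rw [Prod.fst_neg, map_neg, ha.1, neg_zero],
      by rw [Prod.snd_neg, map_neg, ha.2, neg_zero]⟩

omit [Fintype L] in
theorem mem_XS {x : L × L} : x ∈ T.XS ↔ T.τ x.1 = 0 ∧ T.τ x.2 = 0 := Iff.rfl

def UX (j : ℕ) : AddSubgroup T.XS where
  carrier := {x | x.1.1 ∈ T.E j}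
  zero_mem' := zero_mem (T.E j)
  add_mem' := by
    intro a b ha hb
    exact add_mem (S := Subfield L) ha hb
  neg_mem' := by
    intro a ha
    exact neg_mem (S := Subfield L) ha

def WX (j : ℕ) : AddSubgroup T.XS where
  carrier := {x | x.1.1 = 0 ∧ T.π j x.1.2 = 0}
  zero_mem' := ⟨rfl, map_zero _⟩
  add_mem' := by
    intro a b ha hb
    refine ⟨?_, ?_⟩
    · show a.1.1 + b.1.1 = 0
      rw [ha.1, hb.1, add_zero]
    · show T.π j (a.1.2 + b.1.2) = 0
      rw [map_add, ha.2, hb.2, add_zero]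
  neg_mem' := by
    intro a ha
    refine ⟨?_, ?_⟩
    · show - a.1.1 = 0
      rw [ha.1, neg_zero]
    · show T.π j (- a.1.2) = 0
      rw [map_neg, ha.2, neg_zero]

omit [Fintype L] in
theorem mem_UX {j : ℕ} {x : T.XS} : x ∈ T.UX j ↔ x.1.1 ∈ T.E j := Iff.rfl

omit [Fintype L] in
theorem mem_WX {j : ℕ} {x : T.XS} : x ∈ T.WX j ↔ x.1.1 = 0 ∧ T.π j x.1.2 = 0 := Iff.rfl

omit [Fintype L] in
theorem UX_mono : Monotone T.UX := by
  intro i j hij x hx
  exact T.mono hij hx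

omit [Fintype L] in
theorem WX_anti : Antitone T.WX := by
  intro i j hij x hx
  refine ⟨hx.1, ?_⟩
  rw [← T.π_π i j _ hij, hx.2, map_zero]

omit [Fintype L] in
theorem WX_le_UX (i j : ℕ) : T.WX i ≤ T.UX j := by
  intro x hx
  rw [mem_UX, hx.1]
  exact zero_mem _

/-- the chain of subgroups -/
def Ch (i : ℕ) : AddSubgroup T.XS := if i ≤ M then T.WX (M - i) else T.UX (i - M - 1)

theorem Ch_mono : Monotone T.Ch := by
  intro i j hij
  unfold Ch
  split_ifs with h1 h2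
  · exact T.WX_anti (by omega)
  · exact T.WX_le_UX _ _
  · omega
  · exact T.UX_mono (by omega)

omit [Fintype L] in
theorem Ch_top : T.Ch (2 * M + 1) = ⊤ := by
  unfold Ch
  rw [if_neg (by omega)]
  ext x
  rw [mem_UX, show 2 * M + 1 - M - 1 = M by omega, T.top]
  simp

omit [Fintype L] in
theorem Ch_U {j : ℕ} : T.Ch (M + 1 + j) = T.UX j := by
  unfold Ch
  rw [if_neg (by omega)]
  congr 1
  omega

omit [Fintype L] in
theorem Ch_W {j : ℕ} (hj : j ≤ M) : T.Ch (M - j) = T.WX j := by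
  unfold Ch
  rw [if_pos (by omega)]
  congr 1
  omega

theorem card_XS : Nat.card T.XS = T.nV ^ 2 := by
  have h1 : Nat.card T.XS = (univ.filter (fun x : L × L => T.τ x.1 = 0 ∧ T.τ x.2 = 0)).card := by
    rw [Nat.card_eq_fintype_card, ← Fintype.card_subtype]
    exact Fintype.card_congr (Equiv.refl _)
  rw [h1]
  unfold nV
  rw [sq, ← card_product]
  congr 1
  ext x
  simp

theorem card_UX (j : ℕ) : Nat.card (T.UX j) ≤ T.nEV j * T.nV := by
  unfold nEV nV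
  rw [← card_product]
  have h : ∀ x : T.UX j, ((x.1.1.1, x.1.1.2) : L × L) ∈
      (univ.filter (fun l : L => l ∈ T.E j ∧ T.τ l = 0)) ×ˢ (univ.filter (fun l : L => T.τ l = 0)) := by
    intro x
    rw [mem_product]
    simp only [mem_filter, mem_univ, true_and]
    exact ⟨⟨x.2, x.1.2.1⟩, x.1.2.2⟩
  rw [Nat.card_eq_fintype_card, ← card_univ]
  refine card_le_card_of_injOn (fun x : T.UX j => ((x.1.1.1, x.1.1.2) : L × L))
    (fun x _ => mem_coe.2 (h x)) ?_
  intro x _ y _ hxy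
  exact Subtype.ext (Subtype.ext hxy)

theorem card_WX (j : ℕ) : Nat.card (T.WX j) ≤ T.nK j := by
  unfold nK
  rw [Nat.card_eq_fintype_card, ← card_univ]
  refine card_le_card_of_injOn (fun x : T.WX j => (x.1.1.2 : L)) ?_ ?_
  · intro x _
    simp only [mem_coe, mem_filter, mem_univ, true_and]
    exact x.2.2
  · intro x _ y _ hxy
    refine Subtype.ext (Subtype.ext (Prod.ext ?_ hxy))
    rw [x.2.1, y.2.1]

theorem card_mul_le (j : ℕ) : Nat.card (T.UX j) * Nat.card (T.WX j) ≤ T.nV ^ 2 := by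
  calc Nat.card (T.UX j) * Nat.card (T.WX j) ≤ (T.nEV j * T.nV) * T.nK j :=
        Nat.mul_le_mul (T.card_UX j) (T.card_WX j)
    _ = T.nV * (T.nEV j * T.nK j) := by ring
    _ ≤ T.nV * T.nV := Nat.mul_le_mul_left _ (T.nEV_mul j)
    _ = T.nV ^ 2 := by ring

end chain

variable {p ν S : ℕ} [Fact p.Prime] {L : Type} [Field L] [Fintype L] [Algebra (ZMod p) L]

variable {T : Tow p (Bd p ν S) L}

omit [Fintype L] in
/-- degenerate rectangle: equal first coordinates of `x` and `x'`. -/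
theorem deg_x {u v : ZMod p} {x x' y y' : L × L} {sA σA sB σB sC σC sD σD : ℕ}
    (hA : T.FE u v sA σA x y) (hB : T.FE u v sB σB x y')
    (hC : T.FE u v sC σC x' y) (hD : T.FE u v sD σD x' y') (hx : x.1 = x'.1) :
    ∃ j ≤ Bd p ν S, T.π j (x.2 - x'.2) = 0 ∧ y.1 - y'.1 ∈ T.E j := by
  obtain ⟨rfl, rfl⟩ := T.Ed_unique hA.ed hC.ed (by rw [hx])
  obtain ⟨rfl, rfl⟩ := T.Ed_unique hB.ed hD.ed (by rw [hx])
  have h1 : T.π (hgt p ν sA σA) (x.2 - x'.2) = 0 := by
    have e1 := hA.eq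
    have e2 := hC.eq
    rw [hx] at e1
    have := e2.trans e1.symm
    rw [map_sub, map_sub] at this
    rw [map_sub, sub_eq_zero]
    exact (sub_right_inj.1 this).symm
  have h2 : T.π (hgt p ν sB σB) (x.2 - x'.2) = 0 := by
    have e1 := hB.eq
    have e2 := hD.eq
    rw [hx] at e1
    have := e2.trans e1.symm
    rw [map_sub, map_sub] at this
    rw [map_sub, sub_eq_zero]
    exact (sub_right_inj.1 this).symm
  refine ⟨max (hgt p ν sA σA) (hgt p ν sB σB), max_le hA.ed.hgt_le hB.ed.hgt_le, ?_, ?_⟩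
  · rcases max_cases (hgt p ν sA σA) (hgt p ν sB σB) with ⟨h, _⟩ | ⟨h, _⟩
    · rw [h]; exact h1
    · rw [h]; exact h2
  · have e1 : x.1 - y.1 ∈ T.E (max (hgt p ν sA σA) (hgt p ν sB σB)) :=
      T.mono (le_max_left _ _) hA.ed.mem
    have e2 : x.1 - y'.1 ∈ T.E (max (hgt p ν sA σA) (hgt p ν sB σB)) :=
      T.mono (le_max_right _ _) hB.ed.mem
    have := sub_mem e2 e1
    rwa [show x.1 - y'.1 - (x.1 - y.1) = y.1 - y'.1 by ring] at this

omit [Fintype L] in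
/-- degenerate rectangle: equal first coordinates of `y` and `y'`. -/
theorem deg_y {u v : ZMod p} {x x' y y' : L × L} {sA σA sB σB sC σC sD σD : ℕ}
    (hA : T.FE u v sA σA x y) (hB : T.FE u v sB σB x y')
    (hC : T.FE u v sC σC x' y) (hD : T.FE u v sD σD x' y') (hy : y.1 = y'.1) :
    ∃ j ≤ Bd p ν S, T.π j (y.2 - y'.2) = 0 ∧ x.1 - x'.1 ∈ T.E j := by
  obtain ⟨rfl, rfl⟩ := T.Ed_unique hA.ed hB.ed (by rw [hy])
  obtain ⟨rfl, rfl⟩ := T.Ed_unique hC.ed hD.ed (by rw [hy])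
  have h1 : T.π (hgt p ν sA σA) (y.2 - y'.2) = 0 := by
    have e1 := hA.eq
    have e2 := hB.eq
    rw [hy] at e1
    have := e1.trans e2.symm
    rw [map_sub, map_sub] at this
    rw [map_sub, sub_eq_zero]
    exact sub_left_inj.1 this
  have h2 : T.π (hgt p ν sC σC) (y.2 - y'.2) = 0 := by
    have e1 := hC.eq
    have e2 := hD.eq
    rw [hy] at e1
    have := e1.trans e2.symm
    rw [map_sub, map_sub] at this
    rw [map_sub, sub_eq_zero]
    exact sub_left_inj.1 this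
  refine ⟨max (hgt p ν sA σA) (hgt p ν sC σC), max_le hA.ed.hgt_le hC.ed.hgt_le, ?_, ?_⟩
  · rcases max_cases (hgt p ν sA σA) (hgt p ν sC σC) with ⟨h, _⟩ | ⟨h, _⟩
    · rw [h]; exact h1
    · rw [h]; exact h2
  · have e1 : x.1 - y.1 ∈ T.E (max (hgt p ν sA σA) (hgt p ν sC σC)) :=
      T.mono (le_max_left _ _) hA.ed.mem
    have e2 : x'.1 - y.1 ∈ T.E (max (hgt p ν sA σA) (hgt p ν sC σC)) :=
      T.mono (le_max_right _ _) hC.ed.mem
    have := sub_mem e1 e2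
    rwa [show x.1 - y.1 - (x'.1 - y.1) = x.1 - x'.1 by ring] at this

variable (T)

/-- the finite set of cells. -/
theorem cells (hν : 4 * ν + 4 ≤ p) (u v : ZMod p) :
    ∃ A : Finset (ℕ × ℕ), A.card = (T.full u v).card ∧
      (∀ a ∈ A, a.1 < T.nV ^ 2 ∧ a.2 < T.nV ^ 2) ∧
      ∀ i i' j j' : ℕ, (i, j) ∈ A → (i, j') ∈ A → (i', j) ∈ A → (i', j') ∈ A →
        i ≤ i' → j ≤ j' → (i' - i + 1) * (j' - j + 1) ≤ T.nV ^ 2 := by
  obtain ⟨ι, hinj, hlt, hchain⟩ := chain_order (2 * Bd p ν S + 1) T.Ch T.Ch_mono T.Ch_top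
  have hX : Fintype.card T.XS = T.nV ^ 2 := by
    rw [← Nat.card_eq_fintype_card, T.card_XS]
  rw [hX] at hlt
  set B : Finset (T.XS × T.XS) := univ.filter (fun z => ∃ s σ, T.FE u v s σ z.1.1 z.2.1) with hB
  have hBcard : B.card = (T.full u v).card := by
    refine card_bij' (fun z _ => (z.1.1, z.2.1))
      (fun z hz => (⟨z.1, by
          simp only [full, mem_filter, mem_univ, true_and] at hz
          obtain ⟨⟨s, σ, h1⟩, h2, h3⟩ := hz
          exact ⟨h1.ed.τk, h2⟩⟩, ⟨z.2, by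
          simp only [full, mem_filter, mem_univ, true_and] at hz
          obtain ⟨⟨s, σ, h1⟩, h2, h3⟩ := hz
          exact ⟨h1.ed.τκ, h3⟩⟩)) ?_ ?_ ?_ ?_
    · intro z hz
      simp only [hB, mem_filter, mem_univ, true_and] at hz
      simp only [full, mem_filter, mem_univ, true_and]
      exact ⟨hz, z.1.2.2, z.2.2.2⟩
    · intro z hz
      simp only [full, mem_filter, mem_univ, true_and] at hz
      simp only [hB, mem_filter, mem_univ, true_and]
      exact hz.1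
    · intro z _; rfl
    · intro z _; rfl
  refine ⟨B.image (fun z => (ι z.1, ι z.2)), ?_, ?_, ?_⟩
  · rw [card_image_of_injective, hBcard]
    intro z z' h
    have h1 := (Prod.ext_iff.1 h).1
    have h2 := (Prod.ext_iff.1 h).2
    exact Prod.ext (hinj h1) (hinj h2)
  · intro a ha
    obtain ⟨z, _, rfl⟩ := mem_image.1 ha
    exact ⟨hlt _, hlt _⟩
  · have hmem : ∀ i j : ℕ, (i, j) ∈ B.image (fun z => (ι z.1, ι z.2)) →
        ∃ x y : T.XS, ι x = i ∧ ι y = j ∧ ∃ s σ, T.FE u v s σ x.1 y.1 := by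
      intro i j h
      obtain ⟨z, hz, h2⟩ := mem_image.1 h
      simp only [hB, mem_filter, mem_univ, true_and] at hz
      exact ⟨z.1, z.2, (Prod.ext_iff.1 h2).1, (Prod.ext_iff.1 h2).2, hz⟩
    intro i i' j j' h1 h2 h3 h4 hii hjj
    obtain ⟨x, y, rfl, rfl, sA, σA, hA⟩ := hmem _ _ h1
    obtain ⟨x2, y', e1, rfl, sB, σB, hB'⟩ := hmem _ _ h2
    obtain ⟨x', y2, rfl, e2, sC, σC, hC⟩ := hmem _ _ h3
    obtain ⟨x3, y3, e3, e4, sD, σD, hD⟩ := hmem _ _ h4
    have e1' := hinj e1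
    have e2' := hinj e2
    have e3' := hinj e3
    have e4' := hinj e4
    subst e1' e2' e3' e4'
    by_cases hx : x2.1.1 = x3.1.1
    · obtain ⟨r, hr, h5, h6⟩ := deg_x hA hB' hC hD hx
      have h7 : x3 - x2 ∈ T.Ch (Bd p ν S - r) := by
        rw [T.Ch_W hr]
        refine ⟨?_, ?_⟩
        · show x3.1.1 - x2.1.1 = 0
          rw [hx, sub_self]
        · show T.π r (x3.1.2 - x2.1.2) = 0
          rw [show x3.1.2 - x2.1.2 = -(x2.1.2 - x3.1.2) by ring, map_neg, h5, neg_zero]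
      have h8 : y3 - y2 ∈ T.Ch (Bd p ν S + 1 + r) := by
        rw [T.Ch_U]
        show y3.1.1 - y2.1.1 ∈ T.E r
        have := neg_mem h6
        rwa [neg_sub] at this
      have h9 := hchain _ (by omega) _ _ h7
      have h10 := hchain _ (by omega) _ _ h8
      rw [T.Ch_W hr] at h9
      rw [T.Ch_U] at h10
      calc (ι x3 - ι x2 + 1) * (ι y3 - ι y2 + 1) ≤ Nat.card (T.WX r) * Nat.card (T.UX r) :=
            Nat.mul_le_mul (by omega) (by omega)
        _ = Nat.card (T.UX r) * Nat.card (T.WX r) := mul_comm _ _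
        _ ≤ T.nV ^ 2 := T.card_mul_le r
    · by_cases hy : y2.1.1 = y3.1.1
      · obtain ⟨r, hr, h5, h6⟩ := deg_y hA hB' hC hD hy
        have h7 : y3 - y2 ∈ T.Ch (Bd p ν S - r) := by
          rw [T.Ch_W hr]
          refine ⟨?_, ?_⟩
          · show y3.1.1 - y2.1.1 = 0
            rw [hy, sub_self]
          · show T.π r (y3.1.2 - y2.1.2) = 0
            rw [show y3.1.2 - y2.1.2 = -(y2.1.2 - y3.1.2) by ring, map_neg, h5, neg_zero]
        have h8 : x3 - x2 ∈ T.Ch (Bd p ν S + 1 + r) := by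
          rw [T.Ch_U]
          show x3.1.1 - x2.1.1 ∈ T.E r
          have := neg_mem h6
          rwa [neg_sub] at this
        have h9 := hchain _ (by omega) _ _ h7
        have h10 := hchain _ (by omega) _ _ h8
        rw [T.Ch_W hr] at h9
        rw [T.Ch_U] at h10
        calc (ι x3 - ι x2 + 1) * (ι y3 - ι y2 + 1) ≤ Nat.card (T.UX r) * Nat.card (T.WX r) :=
              Nat.mul_le_mul (by omega) (by omega)
          _ ≤ T.nV ^ 2 := T.card_mul_le r
      · exact (no_rect hν hA hB' hC hD hx hy).elim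

end Tow

theorem nV_pos {p M : ℕ} [Fact p.Prime] {L : Type} [Field L] [Fintype L] [Algebra (ZMod p) L]
    (T : Tow p M L) : 0 < T.nV := by
  unfold Tow.nV
  rw [card_pos]
  exact ⟨0, by simp⟩

/-- the finite problem. -/
theorem finite_main (C : ℝ) : ∃ N : ℕ, 0 < N ∧ ∃ A : Finset (ℕ × ℕ),
      (∀ a ∈ A, a.1 < N ∧ a.2 < N) ∧ C * (N : ℝ) ^ 3 ≤ (A.card : ℝ) ^ 2 ∧
      ∀ i i' j j' : ℕ, (i, j) ∈ A → (i, j') ∈ A → (i', j) ∈ A → (i', j') ∈ A →
        i ≤ i' → j ≤ j' → (i' - i + 1) * (j' - j + 1) ≤ N := by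
  -- choose `m`
  obtain ⟨m₀, hm₀⟩ := exists_nat_ge |C|
  set m : ℕ := 32 * (m₀ + 1) with hm
  obtain ⟨p, hpm, hp⟩ := Nat.exists_infinite_primes (16 * m + 16)
  have : Fact p.Prime := ⟨hp⟩
  set ν : ℕ := (p - 4) / 4 with hν
  set S : ℕ := p * m with hS
  obtain ⟨L, iF, iT, iA, E, π, τ, δ, ζ, h1, h2, h3, h4, h5, h6, h7, h8⟩ :=
    exists_tower p (Bd p ν S)
  let := iF
  let := iT
  let := iA
  let T : Tow p (Bd p ν S) L := ⟨E, π, τ, δ, ζ, h1, h2, h3, h4, h5, h6, h7, h8⟩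
  obtain ⟨u, v, huv⟩ := T.exists_uv (m := m) (by omega) hS
  obtain ⟨A, hA1, hA2, hA3⟩ := T.cells (by omega) u v
  refine ⟨T.nV ^ 2, pow_pos (nV_pos T) 2, A, hA2, ?_, hA3⟩
  rw [hA1]
  have k1 : p ^ 3 * m ≤ 32 * (m * ν * ((p - 1) * (p - 2 * m))) := by
    have e1 : p ≤ 8 * ν := by omega
    have e2 : p ≤ 2 * (p - 1) := by omega
    have e3 : p ≤ 2 * (p - 2 * m) := by omega
    calc p ^ 3 * m = m * (p * (p * p)) := by ring
      _ ≤ m * ((8 * ν) * ((2 * (p - 1)) * (2 * (p - 2 * m)))) :=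
          Nat.mul_le_mul_left _ (Nat.mul_le_mul e1 (Nat.mul_le_mul e2 e3))
      _ = 32 * (m * ν * ((p - 1) * (p - 2 * m))) := by ring
  have k2 : m * T.nV ^ 3 ≤ 32 * (T.full u v).card := by
    refine Nat.le_of_mul_le_mul_left ?_ (pow_pos hp.pos 3)
    calc p ^ 3 * (m * T.nV ^ 3) = (p ^ 3 * m) * T.nV ^ 3 := by ring
      _ ≤ (32 * (m * ν * ((p - 1) * (p - 2 * m)))) * T.nV ^ 3 := Nat.mul_le_mul_right _ k1
      _ = 32 * (m * ν * ((p - 1) * (p - 2 * m)) * T.nV ^ 3) := by ring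
      _ ≤ 32 * (p ^ 3 * (T.full u v).card) := Nat.mul_le_mul_left _ huv
      _ = p ^ 3 * (32 * (T.full u v).card) := by ring
  have k3 : (m₀ + 1) * T.nV ^ 3 ≤ (T.full u v).card := by
    rw [hm] at k2
    have : 32 * ((m₀ + 1) * T.nV ^ 3) ≤ 32 * (T.full u v).card := by
      calc 32 * ((m₀ + 1) * T.nV ^ 3) = 32 * (m₀ + 1) * T.nV ^ 3 := by ring
        _ ≤ _ := k2
    omega
  have k4 : ((m₀ : ℝ) + 1) * (T.nV : ℝ) ^ 3 ≤ ((T.full u v).card : ℝ) := by exact_mod_cast k3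
  have k5 : C ≤ ((m₀ : ℝ) + 1) ^ 2 := by
    have : C ≤ m₀ := (le_abs_self C).trans hm₀
    have h0 : (0 : ℝ) ≤ m₀ := Nat.cast_nonneg _
    nlinarith
  have hn : (0 : ℝ) ≤ (T.nV : ℝ) := Nat.cast_nonneg _
  calc C * ((T.nV ^ 2 : ℕ) : ℝ) ^ 3 = C * ((T.nV : ℝ) ^ 3) ^ 2 := by push_cast; ring
    _ ≤ ((m₀ : ℝ) + 1) ^ 2 * ((T.nV : ℝ) ^ 3) ^ 2 :=
        mul_le_mul_of_nonneg_right k5 (by positivity)
    _ = (((m₀ : ℝ) + 1) * (T.nV : ℝ) ^ 3) ^ 2 := by ring
    _ ≤ ((T.full u v).card : ℝ) ^ 2 := pow_le_pow_left₀ (by positivity) k4 2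

end Pool.Agent.Helper190.Carb
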