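import Pool.Agent.Helper190.Carb.Edge

set_option autoImplicit false

namespace Pool.Agent.Helper190.Carb

variable {p ν S : ℕ} [Fact p.Prime] {L : Type} [Field L] [Algebra (ZMod p) L]

namespace Tow

variable (T : Tow p (Bd p ν S) L)

/-- target value of `b - c`. -/
def Φ (p : ℕ) [Fact p.Prime] {L : Type} [Field L] [Algebra (ZMod p) L] (u v : ZMod p) (s : ℕ)
    (k κ : L) : L :=
  (k + ec p L s) * (κ + ec p L s) - algebraMap (ZMod p) L (fv p u v s)

/-- full edge -/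
structure FE (u v : ZMod p) (s σ : ℕ) (x y : L × L) : Prop where
  ed : T.Ed u v s σ x.1 y.1
  eq : T.π (hgt p ν s σ) (y.2 - x.2) = T.π (hgt p ν s σ) (Φ p u v s x.1 y.1)

variable {T} {u v : ZMod p}

theorem FE.eq' {s σ : ℕ} {x y : L × L} (h : T.FE u v s σ x y) {r : ℕ} (hr : r ≤ hgt p ν s σ) :
    T.π r (y.2 - x.2) = T.π r (Φ p u v s x.1 y.1) := by
  rw [← T.π_π r _ _ hr, h.eq, T.π_π r _ _ hr]

theorem alt {x x' y y' : L × L} {sA σA sB σB sC σC sD σD : ℕ}
    (hA : T.FE u v sA σA x y) (hB : T.FE u v sB σB x y')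
    (hC : T.FE u v sC σC x' y) (hD : T.FE u v sD σD x' y') {r : ℕ}
    (h1 : r ≤ hgt p ν sA σA) (h2 : r ≤ hgt p ν sB σB) (h3 : r ≤ hgt p ν sC σC)
    (h4 : r ≤ hgt p ν sD σD) :
    T.π r (Φ p u v sA x.1 y.1 - Φ p u v sB x.1 y'.1 - Φ p u v sC x'.1 y.1
      + Φ p u v sD x'.1 y'.1) = 0 := by
  rw [map_add, map_sub, map_sub, ← hA.eq' h1, ← hB.eq' h2, ← hC.eq' h3, ← hD.eq' h4,
    ← map_sub, ← map_sub, ← map_add]
  rw [show y.2 - x.2 - (y'.2 - x.2) - (y.2 - x'.2) + (y'.2 - x'.2) = 0 by ring, map_zero]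

theorem π_zero_of_mul {r : ℕ} {a z : L} (ha : a ∈ T.E r) (ha0 : a ≠ 0)
    (h : T.π r (a * z) = 0) : T.π r z = 0 := by
  rw [T.π_mul r a z ha] at h
  exact (mul_eq_zero.1 h).resolve_left ha0

theorem no_equal {x x' y y' : L × L} {sA σA sB σB sC σC sD σD : ℕ}
    (hA : T.FE u v sA σA x y) (hB : T.FE u v sB σB x y')
    (hC : T.FE u v sC σC x' y) (hD : T.FE u v sD σD x' y')
    (h1 : hgt p ν sA σA = hgt p ν sB σB) (h2 : hgt p ν sA σA = hgt p ν sC σC)
    (h3 : hgt p ν sA σA = hgt p ν sD σD) (hx : x.1 ≠ x'.1) (hy : y.1 ≠ y'.1) : False := by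
  have halt := alt hA hB hC hD (r := hgt p ν sA σA) le_rfl h1.le h2.le h3.le
  obtain ⟨rfl, rfl⟩ := hgt_inj hA.ed.hσ hB.ed.hσ h1
  obtain ⟨rfl, rfl⟩ := hgt_inj hA.ed.hσ hC.ed.hσ h2
  obtain ⟨rfl, rfl⟩ := hgt_inj hA.ed.hσ hD.ed.hσ h3
  have e1 : x.1 - x'.1 ∈ T.E (hgt p ν sA σA) := by
    have := sub_mem hA.ed.mem hC.ed.mem
    rwa [show x.1 - y.1 - (x'.1 - y.1) = x.1 - x'.1 by ring] at this
  have e2 : y.1 - y'.1 ∈ T.E (hgt p ν sA σA) := by
    have := sub_mem hB.ed.mem hA.ed.mem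
    rwa [show x.1 - y'.1 - (x.1 - y.1) = y.1 - y'.1 by ring] at this
  have e3 : Φ p u v sA x.1 y.1 - Φ p u v sA x.1 y'.1 - Φ p u v sA x'.1 y.1
      + Φ p u v sA x'.1 y'.1 = (x.1 - x'.1) * (y.1 - y'.1) := by
    unfold Φ; ring
  rw [e3, T.π_id _ _ (mul_mem e1 e2)] at halt
  rcases mul_eq_zero.1 halt with h | h
  · exact hx (sub_eq_zero.1 h)
  · exact hy (sub_eq_zero.1 h)

theorem ec_eq_of {s t r : ℕ} {a b : L} (ha : T.τ a = 0) (hb : T.τ b = 0)
    (h : T.π r (a - b + (ec p L s - ec p L t)) = 0) :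
    (s : ZMod p) = (t : ZMod p) ∧ T.π r a = T.π r b := by
  have h1 : T.τ (a - b + (ec p L s - ec p L t)) = 0 := by
    rw [← T.τ_π r, h, map_zero]
  have h2 : (s : ZMod p) = (t : ZMod p) := by
    rw [map_add, map_sub, map_sub, ha, hb] at h1
    unfold ec at h1
    rw [T.τ_alg, T.τ_alg] at h1
    simpa [sub_eq_zero] using h1
  refine ⟨h2, ?_⟩
  unfold ec at h
  rw [h2, sub_self, add_zero, map_sub, sub_eq_zero] at h
  exact h

omit [Fact p.Prime] in
theorem modeq_nat {a b : ℕ} {m : ℕ} (h : (a : ℤ) ≡ (b : ℤ) [ZMOD (p : ℤ) ^ m]) :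
    a ≡ b [MOD p ^ m] := by
  rw [← Int.natCast_modEq_iff]
  push_cast
  exact h

omit [Fact p.Prime] in
theorem small {s σ : ℕ} (hν : 4 * ν + 4 ≤ p) (h : σ < ν * p ^ s) : σ < p ^ (s + 1) := by
  have : ν * p ^ s ≤ p * p ^ s := Nat.mul_le_mul_right _ (by omega)
  rw [pow_succ, mul_comm (p ^ s)]
  omega

theorem no_two (hν : 4 * ν + 4 ≤ p) {x x' y y' : L × L} {sA σA sB σB sC σC sD σD : ℕ}
    (hA : T.FE u v sA σA x y) (hB : T.FE u v sB σB x y')
    (hC : T.FE u v sC σC x' y) (hD : T.FE u v sD σD x' y')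
    (h1 : hgt p ν sA σA = hgt p ν sB σB) (h2 : hgt p ν sA σA < hgt p ν sC σC)
    (h3 : hgt p ν sC σC = hgt p ν sD σD) (hy : y.1 ≠ y'.1) : False := by
  have halt := alt hA hB hC hD (r := hgt p ν sA σA) le_rfl h1.le h2.le (by omega)
  obtain ⟨rfl, rfl⟩ := hgt_inj hA.ed.hσ hB.ed.hσ h1
  obtain ⟨rfl, rfl⟩ := hgt_inj hC.ed.hσ hD.ed.hσ h3
  have e2 : y.1 - y'.1 ∈ T.E (hgt p ν sA σA) := by
    have := sub_mem hB.ed.mem hA.ed.mem
    rwa [show x.1 - y'.1 - (x.1 - y.1) = y.1 - y'.1 by ring] at this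
  have e3 : Φ p u v sA x.1 y.1 - Φ p u v sA x.1 y'.1 - Φ p u v sC x'.1 y.1
      + Φ p u v sC x'.1 y'.1
      = (y.1 - y'.1) * (x.1 - x'.1 + (ec p L sA - ec p L sC)) := by
    unfold Φ; ring
  rw [e3] at halt
  have h4 := π_zero_of_mul e2 (sub_ne_zero.2 hy) halt
  obtain ⟨h5, h6⟩ := ec_eq_of hA.ed.τk hC.ed.τk h4
  have hdg : ∀ i, i ≤ sA → T.dg ν x.1 i = T.dg ν x'.1 i := fun i hi => dg_congr hA.ed.hs h6 hi
  rcases (hgt_lt_iff (p := p) (ν := ν) hA.ed.hσ hC.ed.hσ).1 h2 with hlt | ⟨rfl, hlt⟩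
  · -- different blocks
    have h7 : (σC : ℤ) ≡ σA [ZMOD (p : ℤ) ^ (sA + 1)] := by
      have e4 : dif p ν (T.dg ν y.1) (T.dg ν x'.1) sA ≡ σC [ZMOD (p : ℤ) ^ (sA + 1)] :=
        (dif_mod ν _ _ hlt.le).symm.trans
          (hC.ed.lab.of_dvd (pow_dvd_pow (p : ℤ) (show sA + 1 ≤ sC + 1 by omega)))
      rw [← dif_congr_right _ hdg] at e4
      exact e4.symm.trans hA.ed.lab
    have h8 : σC % p ^ (sA + 1) = σA := by
      have := modeq_nat h7
      unfold Nat.ModEq at this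
      rw [this, Nat.mod_eq_of_lt (small hν hA.ed.hσ)]
    have h9 := (hC.ed.hyb sA hlt h5).1
    rw [h8] at h9
    apply h9
    have e5 : T.π (hgt p ν sA σA) (x'.1 - y.1) = x.1 - y.1 := by
      rw [map_sub, ← h6, ← map_sub, T.π_id _ _ hA.ed.mem]
    rw [e5, show y.1 + (x.1 - y.1) = x.1 by ring]
    exact hA.ed.q.symm
  · -- same block
    have e4 := hC.ed.lab
    rw [← dif_congr_right _ hdg] at e4
    have h7 : (σA : ℤ) ≡ σC [ZMOD (p : ℤ) ^ (sA + 1)] := hA.ed.lab.symm.trans e4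
    have := modeq_nat h7
    unfold Nat.ModEq at this
    rw [Nat.mod_eq_of_lt (small hν hA.ed.hσ), Nat.mod_eq_of_lt (small hν hC.ed.hσ)] at this
    omega

theorem no_two' (hν : 4 * ν + 4 ≤ p) {x x' y y' : L × L} {sA σA sB σB sC σC sD σD : ℕ}
    (hA : T.FE u v sA σA x y) (hB : T.FE u v sB σB x' y)
    (hC : T.FE u v sC σC x y') (hD : T.FE u v sD σD x' y')
    (h1 : hgt p ν sA σA = hgt p ν sB σB) (h2 : hgt p ν sA σA < hgt p ν sC σC)
    (h3 : hgt p ν sC σC = hgt p ν sD σD) (hx : x.1 ≠ x'.1) : False := by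
  have halt := alt hA hC hB hD (r := hgt p ν sA σA) le_rfl h2.le h1.le (by omega)
  obtain ⟨rfl, rfl⟩ := hgt_inj hA.ed.hσ hB.ed.hσ h1
  obtain ⟨rfl, rfl⟩ := hgt_inj hC.ed.hσ hD.ed.hσ h3
  have e2 : x.1 - x'.1 ∈ T.E (hgt p ν sA σA) := by
    have := sub_mem hA.ed.mem hB.ed.mem
    rwa [show x.1 - y.1 - (x'.1 - y.1) = x.1 - x'.1 by ring] at this
  have e3 : Φ p u v sA x.1 y.1 - Φ p u v sC x.1 y'.1 - Φ p u v sA x'.1 y.1
      + Φ p u v sC x'.1 y'.1
      = (x.1 - x'.1) * (y.1 - y'.1 + (ec p L sA - ec p L sC)) := by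
    unfold Φ; ring
  rw [e3] at halt
  have h4 := π_zero_of_mul e2 (sub_ne_zero.2 hx) halt
  obtain ⟨h5, h6⟩ := ec_eq_of hA.ed.τκ hC.ed.τκ h4
  have hdg : ∀ i, i ≤ sA → T.dg ν y.1 i = T.dg ν y'.1 i := fun i hi => dg_congr hA.ed.hs h6 hi
  rcases (hgt_lt_iff (p := p) (ν := ν) hA.ed.hσ hC.ed.hσ).1 h2 with hlt | ⟨rfl, hlt⟩
  · -- different blocks
    have h7 : (σC : ℤ) ≡ σA [ZMOD (p : ℤ) ^ (sA + 1)] := by
      have e4 : dif p ν (T.dg ν y'.1) (T.dg ν x.1) sA ≡ σC [ZMOD (p : ℤ) ^ (sA + 1)] :=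
        (dif_mod ν _ _ hlt.le).symm.trans
          (hC.ed.lab.of_dvd (pow_dvd_pow (p : ℤ) (show sA + 1 ≤ sC + 1 by omega)))
      rw [← dif_congr_left _ hdg] at e4
      exact e4.symm.trans hA.ed.lab
    have h8 : σC % p ^ (sA + 1) = σA := by
      have := modeq_nat h7
      unfold Nat.ModEq at this
      rw [this, Nat.mod_eq_of_lt (small hν hA.ed.hσ)]
    have h9 := (hC.ed.hyb sA hlt h5).2
    rw [h8] at h9
    apply h9
    have e5 : T.π (hgt p ν sA σA) (x.1 - y'.1) = x.1 - y.1 := by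
      rw [map_sub, ← h6, ← map_sub, T.π_id _ _ hA.ed.mem]
    rw [e5, show x.1 - (x.1 - y.1) = y.1 by ring]
    exact hA.ed.q.symm
  · -- same block
    have e4 := hC.ed.lab
    rw [← dif_congr_left _ hdg] at e4
    have h7 : (σA : ℤ) ≡ σC [ZMOD (p : ℤ) ^ (sA + 1)] := hA.ed.lab.symm.trans e4
    have := modeq_nat h7
    unfold Nat.ModEq at this
    rw [Nat.mod_eq_of_lt (small hν hA.ed.hσ), Nat.mod_eq_of_lt (small hν hC.ed.hσ)] at this
    omega

/-- ultrametric inequality for the four heights. -/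
theorem ultra {x x' y y' : L × L} {sA σA sB σB sC σC sD σD : ℕ}
    (hA : T.FE u v sA σA x y) (hB : T.FE u v sB σB x y')
    (hC : T.FE u v sC σC x' y) (hD : T.FE u v sD σD x' y') :
    hgt p ν sA σA ≤ max (hgt p ν sB σB) (max (hgt p ν sC σC) (hgt p ν sD σD)) := by
  by_contra hcon
  push Not at hcon
  refine hA.ed.not_mem hcon ?_
  have e1 : x.1 - y'.1 ∈ T.E (max (hgt p ν sB σB) (max (hgt p ν sC σC) (hgt p ν sD σD))) :=
    T.mono (by simp) hB.ed.mem
  have e2 : x'.1 - y.1 ∈ T.E (max (hgt p ν sB σB) (max (hgt p ν sC σC) (hgt p ν sD σD))) :=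
    T.mono (by simp) hC.ed.mem
  have e3 : x'.1 - y'.1 ∈ T.E (max (hgt p ν sB σB) (max (hgt p ν sC σC) (hgt p ν sD σD))) :=
    T.mono (by simp) hD.ed.mem
  have := sub_mem (add_mem e1 e2) e3
  rwa [show x.1 - y'.1 + (x'.1 - y.1) - (x'.1 - y'.1) = x.1 - y.1 by ring] at this

/-- no rectangle with distinct first coordinates on both sides. -/
theorem no_rect (hν : 4 * ν + 4 ≤ p) {x x' y y' : L × L} {sA σA sB σB sC σC sD σD : ℕ}
    (hA : T.FE u v sA σA x y) (hB : T.FE u v sB σB x y')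
    (hC : T.FE u v sC σC x' y) (hD : T.FE u v sD σD x' y')
    (hx : x.1 ≠ x'.1) (hy : y.1 ≠ y'.1) : False := by
  have uA := ultra hA hB hC hD
  have uB := ultra hB hA hD hC
  have uC := ultra hC hD hA hB
  have uD := ultra hD hC hB hA
  generalize ha : hgt p ν sA σA = a at *
  generalize hb : hgt p ν sB σB = b at *
  generalize hc : hgt p ν sC σC = c at *
  generalize hd : hgt p ν sD σD = d at *
  rcases lt_trichotomy a b with hab | hab | hab
  · rcases lt_trichotomy c d with hcd | hcd | hcd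
    · have hbd : b = d := by omega
      rcases lt_trichotomy a c with hac | hac | hac
      · exact no_three' hν hA.ed hC.ed hB.ed hD.ed (by omega) (by omega) (by omega)
      · exact no_two' hν hA hC hB hD (by omega) (by omega) (by omega) hx
      · exact no_three' hν hC.ed hA.ed hD.ed hB.ed (by omega) (by omega) (by omega)
    · exact no_three hν hA.ed hB.ed hC.ed hD.ed (by omega) (by omega) (by omega)
    · have hbc : b = c := by omega
      exact no_diag hν hA.ed hD.ed hB.ed hC.ed (by omega) (by omega) (by omega)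
  · rcases lt_trichotomy c d with hcd | hcd | hcd
    · exact no_three hν hC.ed hD.ed hA.ed hB.ed (by omega) (by omega) (by omega)
    · rcases lt_trichotomy a c with hac | hac | hac
      · exact no_two hν hA hB hC hD (by omega) (by omega) (by omega) hy
      · exact no_equal hA hB hC hD (by omega) (by omega) (by omega) hx hy
      · exact no_two hν hC hD hA hB (by omega) (by omega) (by omega) hy
    · exact no_three hν hD.ed hC.ed hB.ed hA.ed (by omega) (by omega) (by omega)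
  · rcases lt_trichotomy c d with hcd | hcd | hcd
    · have had : a = d := by omega
      exact no_diag hν hB.ed hC.ed hA.ed hD.ed (by omega) (by omega) (by omega)
    · exact no_three hν hB.ed hA.ed hD.ed hC.ed (by omega) (by omega) (by omega)
    · have hac : a = c := by omega
      rcases lt_trichotomy b d with hbd | hbd | hbd
      · exact no_three' hν hB.ed hD.ed hA.ed hC.ed (by omega) (by omega) (by omega)
      · exact no_two' hν hB hD hA hC (by omega) (by omega) (by omega) hx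
      · exact no_three' hν hD.ed hB.ed hC.ed hA.ed (by omega) (by omega) (by omega)

end Tow

end Pool.Agent.Helper190.Carb
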