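import Pool.Agent.Helper190.Carb.Sum

set_option autoImplicit false

namespace Pool.Agent.Helper190.Carb

open Finset Classical

namespace Tow

section sizes

variable {p M : ℕ} [Fact p.Prime] {L : Type} [Field L] [Fintype L] [Algebra (ZMod p) L]

variable (T : Tow p M L)

theorem card_L : Fintype.card L = p * T.nV := by
  have h := T.cnt_empty M 0 (fun _ => 0)
  have h1 : T.nE M = Fintype.card L := by
    unfold nE
    rw [T.top]
    simp
  have h2 : T.cnt M ∅ 0 (fun _ => 0) = T.nV := by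
    unfold cnt nV
    congr 1
    ext l
    simp [T.top]
  rw [← h1, h, h2]

theorem card_le_mul (j : ℕ) : Fintype.card L ≤ T.nE j * T.nK j := by
  unfold nE nK
  rw [← card_product, ← card_univ]
  refine card_le_card_of_injOn (fun x => (T.π j x, x - T.π j x)) ?_ ?_
  · intro x _
    rw [mem_coe, mem_product]
    simp only [mem_filter, mem_univ, true_and]
    refine ⟨T.π_mem j x, ?_⟩
    rw [map_sub, T.π_π j j x le_rfl, sub_self]
  · intro x _ y _ hxy
    have h1 := (Prod.ext_iff.1 hxy).1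
    have h2 := (Prod.ext_iff.1 hxy).2
    simp only at h1 h2
    rw [h1] at h2
    exact sub_left_inj.1 h2

omit [Fintype L] in
theorem τ_of_π_zero {j : ℕ} {x : L} (h : T.π j x = 0) : T.τ x = 0 := by
  rw [← T.τ_π j, h, map_zero]

noncomputable def nEV (j : ℕ) : ℕ := (univ.filter (fun l : L => l ∈ T.E j ∧ T.τ l = 0)).card

theorem nEV_mul (j : ℕ) : T.nEV j * T.nK j ≤ T.nV := by
  unfold nEV nK nV
  rw [← card_product]
  refine card_le_card_of_injOn (fun z => z.1 + z.2) ?_ ?_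
  · intro z hz
    rw [mem_coe, mem_product] at hz
    simp only [mem_filter, mem_univ, true_and] at hz
    simp only [mem_coe, mem_filter, mem_univ, true_and]
    rw [map_add, hz.1.2, T.τ_of_π_zero hz.2, add_zero]
  · intro z hz z' hz' h
    rw [mem_coe, mem_product] at hz hz'
    simp only [mem_filter, mem_univ, true_and] at hz hz'
    simp only at h
    have h1 : z.1 = z'.1 := by
      have := congrArg (T.π j) h
      rwa [map_add, map_add, hz.2, hz'.2, add_zero, add_zero, T.π_id _ _ hz.1.1,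
        T.π_id _ _ hz'.1.1] at this
    rw [h1] at h
    exact Prod.ext h1 (add_left_cancel h)

end sizes

variable {p ν S : ℕ} [Fact p.Prime] {L : Type} [Field L] [Fintype L] [Algebra (ZMod p) L]

variable (T : Tow p (Bd p ν S) L)

noncomputable def FF (u v : ZMod p) (s σ : ℕ) : Finset ((L × L) × (L × L)) :=
  univ.filter (fun z => T.FE u v s σ z.1 z.2 ∧ T.τ z.1.2 = 0 ∧ T.τ z.2.2 = 0)

omit [Fintype L] in
theorem τ_Φ {u v : ZMod p} {s σ : ℕ} {k κ : L} (h : T.Ed u v s σ k κ) :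
    T.τ (Φ p u v s k κ) = 0 := by
  unfold Φ
  rw [map_sub, T.τ_alg]
  have := h.q
  unfold Q at this
  rw [this, sub_self]

theorem PE_le_FF (u v : ZMod p) (s σ : ℕ) :
    (T.PE u v s σ).card * (T.nV * T.nK (hgt p ν s σ)) ≤ (T.FF u v s σ).card := by
  unfold PE nV nK FF
  rw [← card_product, ← card_product]
  refine card_le_card_of_injOn
    (fun z => ((z.1.1, z.2.1), (z.1.2, z.2.1 + Φ p u v s z.1.1 z.1.2 + z.2.2))) ?_ ?_
  · intro z hz
    rw [mem_coe, mem_product, mem_product] at hz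
    simp only [mem_filter, mem_univ, true_and] at hz
    simp only [mem_coe, mem_filter, mem_univ, true_and]
    obtain ⟨h1, h2, h3⟩ := hz
    refine ⟨⟨h1, ?_⟩, h2, ?_⟩
    · simp only
      rw [show z.2.1 + Φ p u v s z.1.1 z.1.2 + z.2.2 - z.2.1 = Φ p u v s z.1.1 z.1.2 + z.2.2 by ring,
        map_add, h3, add_zero]
    · rw [map_add, map_add, h2, T.τ_Φ h1, T.τ_of_π_zero h3]
      simp
  · intro z _ z' _ h
    simp only [Prod.mk.injEq] at h
    obtain ⟨⟨h1, h2⟩, h3, h4⟩ := h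
    rw [h1, h2, h3] at h4
    exact Prod.ext (Prod.ext h1 h3) (Prod.ext h2 (add_left_cancel h4))

/-- the number of full edges of one level, summed over the parameters. -/
theorem sum_FF {m : ℕ} (hm : m ≤ p) (hS : S = p * m) {s σ : ℕ} (hs : s < S)
    (hσ : σ < ν * p ^ s) :
    (p - 1) * (p - 2 * m) * T.nV ^ 3 ≤
      p ^ (s + 2) * ∑ z : ZMod p × ZMod p, (T.FF z.1 z.2 s σ).card := by
  have hp : 0 < p := (Fact.out : p.Prime).pos
  have h1 : ∀ z : ZMod p × ZMod p, (T.PE z.1 z.2 s σ).card * (T.nV * T.nK (hgt p ν s σ)) ≤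
      (T.FF z.1 z.2 s σ).card := fun z => T.PE_le_FF z.1 z.2 s σ
  have h2 := T.sum_PE hm hS hs hσ
  have h3 := T.GD_card hs hσ
  have h4 := T.card_le_mul (hgt p ν s σ)
  rw [T.card_L] at h4
  refine Nat.le_of_mul_le_mul_left ?_ hp
  calc p * ((p - 1) * (p - 2 * m) * T.nV ^ 3)
      = T.nV * (p - 1) * (p - 2 * m) * T.nV * (p * T.nV) := by ring
    _ ≤ T.nV * (p - 1) * (p - 2 * m) * T.nV * (T.nE (hgt p ν s σ) * T.nK (hgt p ν s σ)) :=
        Nat.mul_le_mul_left _ h4
    _ = (T.nV * ((p - 1) * T.nE (hgt p ν s σ))) *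
          ((p - 2 * m) * (T.nV * T.nK (hgt p ν s σ))) := by ring
    _ ≤ (p ^ (s + 3) * (T.GD s σ).card) * ((p - 2 * m) * (T.nV * T.nK (hgt p ν s σ))) :=
        Nat.mul_le_mul_right _ h3
    _ = p ^ (s + 3) * (((T.GD s σ).card * (p - 2 * m)) * (T.nV * T.nK (hgt p ν s σ))) := by ring
    _ ≤ p ^ (s + 3) * ((∑ z : ZMod p × ZMod p, (T.PE z.1 z.2 s σ).card) *
          (T.nV * T.nK (hgt p ν s σ))) :=
        Nat.mul_le_mul_left _ (Nat.mul_le_mul_right _ h2)
    _ = p ^ (s + 3) * (∑ z : ZMod p × ZMod p, (T.PE z.1 z.2 s σ).card *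
          (T.nV * T.nK (hgt p ν s σ))) := by rw [sum_mul]
    _ ≤ p ^ (s + 3) * ∑ z : ZMod p × ZMod p, (T.FF z.1 z.2 s σ).card :=
        Nat.mul_le_mul_left _ (sum_le_sum (fun z _ => h1 z))
    _ = p * (p ^ (s + 2) * ∑ z : ZMod p × ZMod p, (T.FF z.1 z.2 s σ).card) := by ring

/-- all full edges -/
noncomputable def full (u v : ZMod p) : Finset ((L × L) × (L × L)) :=
  univ.filter (fun z => (∃ s σ, T.FE u v s σ z.1 z.2) ∧ T.τ z.1.2 = 0 ∧ T.τ z.2.2 = 0)

omit [Fintype L] in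
theorem Ed_unique {u v : ZMod p} {s σ t ρ : ℕ} {k κ k' κ' : L} (h : T.Ed u v s σ k κ)
    (h' : T.Ed u v t ρ k' κ') (he : k - κ = k' - κ') : s = t ∧ σ = ρ := by
  apply hgt_inj h.hσ h'.hσ
  apply le_antisymm
  · by_contra hcon
    exact h.not_mem (not_le.1 hcon) (he ▸ h'.mem)
  · by_contra hcon
    exact h'.not_mem (not_le.1 hcon) (he ▸ h.mem)

theorem sum_full (u v : ZMod p) :
    ∑ s ∈ range S, ∑ σ ∈ range (ν * p ^ s), (T.FF u v s σ).card ≤ (T.full u v).card := by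
  have h1 : ∑ s ∈ range S, ∑ σ ∈ range (ν * p ^ s), (T.FF u v s σ).card =
      ∑ i ∈ (range S).sigma (fun s => range (ν * p ^ s)), (T.FF u v i.1 i.2).card := by
    rw [sum_sigma]
  rw [h1, ← card_biUnion]
  · refine card_le_card (fun z hz => ?_)
    obtain ⟨i, _, hz'⟩ := mem_biUnion.1 hz
    simp only [FF, full, mem_filter, mem_univ, true_and] at hz' ⊢
    exact ⟨⟨i.1, i.2, hz'.1⟩, hz'.2⟩
  · intro i _ i' _ hii
    rw [Function.onFun, Finset.disjoint_left]
    intro z hz hz'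
    simp only [FF, mem_filter, mem_univ, true_and] at hz hz'
    obtain ⟨h2, h3⟩ := T.Ed_unique hz.1.ed hz'.1.ed rfl
    apply hii
    rcases i with ⟨s, σ⟩
    rcases i' with ⟨t, ρ⟩
    simp only at h2 h3
    subst h2 h3
    rfl

theorem exists_uv {m : ℕ} (hm : m ≤ p) (hS : S = p * m) :
    ∃ u v : ZMod p, m * ν * ((p - 1) * (p - 2 * m)) * T.nV ^ 3 ≤ p ^ 3 * (T.full u v).card := by
  have hp : 0 < p := (Fact.out : p.Prime).pos
  set c := (p - 1) * (p - 2 * m) * T.nV ^ 3 with hc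
  -- sum over one block
  have h1 : ∀ s < S, ν * c ≤
      p ^ 2 * ∑ σ ∈ range (ν * p ^ s), ∑ z : ZMod p × ZMod p, (T.FF z.1 z.2 s σ).card := by
    intro s hs
    refine Nat.le_of_mul_le_mul_left ?_ (pow_pos hp s)
    calc p ^ s * (ν * c) = ∑ _σ ∈ range (ν * p ^ s), c := by
          rw [sum_const, smul_eq_mul, card_range]; ring
      _ ≤ ∑ σ ∈ range (ν * p ^ s), p ^ (s + 2) * ∑ z : ZMod p × ZMod p,
            (T.FF z.1 z.2 s σ).card :=
          sum_le_sum (fun σ hσ => T.sum_FF hm hS hs (mem_range.1 hσ))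
      _ = p ^ s * (p ^ 2 * ∑ σ ∈ range (ν * p ^ s), ∑ z : ZMod p × ZMod p,
            (T.FF z.1 z.2 s σ).card) := by
          rw [← mul_sum]; ring
  have h2 : m * ν * c ≤ p * ∑ s ∈ range S, ∑ σ ∈ range (ν * p ^ s), ∑ z : ZMod p × ZMod p,
      (T.FF z.1 z.2 s σ).card := by
    refine Nat.le_of_mul_le_mul_left ?_ hp
    calc p * (m * ν * c) = ∑ _s ∈ range S, ν * c := by
          rw [sum_const, smul_eq_mul, card_range, hS]; ring
      _ ≤ ∑ s ∈ range S, p ^ 2 * ∑ σ ∈ range (ν * p ^ s), ∑ z : ZMod p × ZMod p,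
            (T.FF z.1 z.2 s σ).card :=
          sum_le_sum (fun s hs => h1 s (mem_range.1 hs))
      _ = p * (p * ∑ s ∈ range S, ∑ σ ∈ range (ν * p ^ s), ∑ z : ZMod p × ZMod p,
            (T.FF z.1 z.2 s σ).card) := by
          rw [← mul_sum]; ring
  have h3 : ∑ s ∈ range S, ∑ σ ∈ range (ν * p ^ s), ∑ z : ZMod p × ZMod p,
      (T.FF z.1 z.2 s σ).card = ∑ z : ZMod p × ZMod p, ∑ s ∈ range S,
        ∑ σ ∈ range (ν * p ^ s), (T.FF z.1 z.2 s σ).card := by
    rw [Finset.sum_comm' (s := range S) (t := fun _ => (univ : Finset (ZMod p × ZMod p)))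
      (t' := univ) (s' := fun _ => range S) (by intro x y; simp) |>.symm]
    refine sum_congr rfl (fun s _ => ?_)
    rw [Finset.sum_comm]
  rw [h3] at h2
  have h4 : m * ν * c ≤ p * ∑ z : ZMod p × ZMod p, (T.full z.1 z.2).card :=
    h2.trans (Nat.mul_le_mul_left _ (sum_le_sum (fun z _ => T.sum_full z.1 z.2)))
  by_contra hcon
  push Not at hcon
  have h5 : ∀ z ∈ (univ : Finset (ZMod p × ZMod p)), p ^ 3 * (T.full z.1 z.2).card < m * ν * c := by
    intro z _
    have := hcon z.1 z.2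
    rw [hc]
    calc p ^ 3 * (T.full z.1 z.2).card < m * ν * ((p - 1) * (p - 2 * m)) * T.nV ^ 3 := this
      _ = _ := by ring
  have h6 : ∑ z : ZMod p × ZMod p, p ^ 3 * (T.full z.1 z.2).card <
      ∑ _z : ZMod p × ZMod p, m * ν * c :=
    sum_lt_sum_of_nonempty ⟨(0, 0), mem_univ _⟩ h5
  rw [← mul_sum, sum_const, card_univ, Fintype.card_prod, ZMod.card, smul_eq_mul] at h6
  have h7 : p * p * (m * ν * c) ≤ p ^ 3 * ∑ z : ZMod p × ZMod p, (T.full z.1 z.2).card := by
    calc p * p * (m * ν * c) ≤ p * p * (p * ∑ z : ZMod p × ZMod p, (T.full z.1 z.2).card) :=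
          Nat.mul_le_mul_left _ h4
      _ = _ := by ring
  omega

end Tow

end Pool.Agent.Helper190.Carb
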