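import Pool.Agent.Helper190.Carb.Cnt

set_option autoImplicit false

namespace Pool.Agent.Helper190.Carb

open Finset Classical

section uv

variable {p : ℕ} [Fact p.Prime]

theorem J_card {s m : ℕ} (hs : s < p * m) :
    ((range s).filter (fun s' : ℕ => ((s' : ℕ) : ZMod p) = ((s : ℕ) : ZMod p))).card ≤ m := by
  have hp : 0 < p := (Fact.out : p.Prime).pos
  calc ((range s).filter (fun s' : ℕ => ((s' : ℕ) : ZMod p) = ((s : ℕ) : ZMod p))).card
      ≤ (range m).card := by
        refine card_le_card_of_injOn (fun s' : ℕ => s' / p) ?_ ?_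
        · intro s' hs'
          have h1 : s' < s := by
            have := mem_coe.1 hs'
            simp only [mem_filter, mem_range] at this
            exact this.1
          simp only [coe_range, Set.mem_Iio]
          apply Nat.div_lt_of_lt_mul
          omega
        · intro a ha b hb hab
          have h1 := mem_coe.1 ha
          have h2 := mem_coe.1 hb
          simp only [mem_filter, mem_range] at h1 h2
          have h3 : (a : ZMod p) = (b : ZMod p) := h1.2.trans h2.2.symm
          rw [ZMod.natCast_eq_natCast_iff] at h3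
          have h4 : a % p = b % p := h3
          have h5 : a / p = b / p := hab
          rw [← Nat.div_add_mod a p, ← Nat.div_add_mod b p, h4, h5]
    _ = m := card_range m

theorem quot_ne {s s' m : ℕ} (hs : s < p * m) (hm : m ≤ p) (h : s' < s)
    (h2 : (s' : ZMod p) = (s : ZMod p)) : ((s' / p : ℕ) : ZMod p) ≠ ((s / p : ℕ) : ZMod p) := by
  have hp : 0 < p := (Fact.out : p.Prime).pos
  intro h3
  rw [ZMod.natCast_eq_natCast_iff] at h2 h3
  have h4 : s / p < p := lt_of_lt_of_le (Nat.div_lt_of_lt_mul hs) hm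
  have h5 : s' / p < p := lt_of_lt_of_le (Nat.div_lt_of_lt_mul (by omega)) hm
  have h6 : s' / p = s / p := by
    unfold Nat.ModEq at h3
    rwa [Nat.mod_eq_of_lt h4, Nat.mod_eq_of_lt h5] at h3
  have h7 : s' % p = s % p := h2
  have := Nat.div_add_mod s p
  have h8 := Nat.div_add_mod s' p
  rw [h6, h7] at h8
  omega

theorem uv_count {s m : ℕ} (hs : s < p * m) (hm : m ≤ p) (q : ZMod p) (a b : ℕ → ZMod p) :
    p - 2 * m ≤ (univ.filter (fun z : ZMod p × ZMod p => Tow.fv p z.1 z.2 s = q ∧
      ∀ s' : ℕ, s' < s → (s' : ZMod p) = (s : ZMod p) →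
        Tow.fv p z.1 z.2 s' ≠ a s' ∧ Tow.fv p z.1 z.2 s' ≠ b s')).card := by
  set J := (range s).filter (fun s' : ℕ => ((s' : ℕ) : ZMod p) = ((s : ℕ) : ZMod p)) with hJ
  set U : ZMod p → ZMod p := fun v => q - v * ((s / p : ℕ) : ZMod p) with hU
  set bad : Finset (ZMod p) := J.biUnion (fun s' : ℕ =>
    (univ.filter (fun v => Tow.fv p (U v) v s' = a s')) ∪
    (univ.filter (fun v => Tow.fv p (U v) v s' = b s'))) with hbad
  have hone : ∀ s' ∈ J, ∀ c : ZMod p, (univ.filter (fun v => Tow.fv p (U v) v s' = c)).card ≤ 1 := by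
    intro s' hs' c
    rw [card_le_one]
    intro v hv v' hv'
    simp only [mem_filter, mem_univ, true_and] at hv hv'
    have h1 : s' < s ∧ (s' : ZMod p) = (s : ZMod p) := by
      simpa [hJ] using hs'
    have h2 := quot_ne hs hm h1.1 h1.2
    have h3 := hv.trans hv'.symm
    simp only [Tow.fv, hU] at h3
    have h4 : (v - v') * (((s' / p : ℕ) : ZMod p) - ((s / p : ℕ) : ZMod p)) = 0 := by
      linear_combination h3
    rcases mul_eq_zero.1 h4 with h5 | h5
    · exact sub_eq_zero.1 h5
    · exact absurd (sub_eq_zero.1 h5) h2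
  have hbadc : bad.card ≤ 2 * m := by
    calc bad.card ≤ ∑ s' ∈ J, ((univ.filter (fun v => Tow.fv p (U v) v s' = a s')) ∪
          (univ.filter (fun v => Tow.fv p (U v) v s' = b s'))).card := card_biUnion_le
      _ ≤ ∑ _s' ∈ J, 2 := by
          refine sum_le_sum (fun s' hs' => ?_)
          refine (card_union_le _ _).trans ?_
          have := hone s' hs' (a s')
          have := hone s' hs' (b s')
          omega
      _ = J.card * 2 := by rw [sum_const, smul_eq_mul]
      _ ≤ 2 * m := by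
          have := J_card hs
          rw [← hJ] at this
          omega
  have h1 : p - 2 * m ≤ (univ \ bad).card := by
    rw [card_sdiff_of_subset (subset_univ _), card_univ, ZMod.card]
    omega
  refine h1.trans ?_
  refine card_le_card_of_injOn (fun v => (U v, v)) ?_ ?_
  · intro v hv
    have hv' := mem_coe.1 hv
    simp only [mem_sdiff, mem_univ, true_and] at hv'
    simp only [coe_filter, mem_univ, true_and, Set.mem_ofPred_eq]
    refine ⟨by simp [Tow.fv, hU], fun s' h2 h3 => ?_⟩
    constructor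
    · intro h4
      apply hv'
      rw [hbad, mem_biUnion]
      exact ⟨s', by simp [hJ, h2, h3], by simp [h4]⟩
    · intro h4
      apply hv'
      rw [hbad, mem_biUnion]
      exact ⟨s', by simp [hJ, h2, h3], by simp [h4]⟩
  · intro v _ v' _ h
    exact (Prod.ext_iff.1 h).2

end uv

variable {p ν S : ℕ} [Fact p.Prime] {L : Type} [Field L] [Fintype L] [Algebra (ZMod p) L]

namespace Tow

variable (T : Tow p (Bd p ν S) L)

/-- conditions of an edge not involving `u, v` -/
structure Good (s σ : ℕ) (k κ : L) : Prop where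
  τk : T.τ k = 0
  τκ : T.τ κ = 0
  mem : k - κ ∈ T.E (hgt p ν s σ)
  ex : T.D (hgt p ν s σ - 1) (k - κ) ≠ 0
  lab : dif p ν (T.dg ν κ) (T.dg ν k) s ≡ σ [ZMOD (p : ℤ) ^ (s + 1)]

noncomputable def PE (u v : ZMod p) (s σ : ℕ) : Finset (L × L) :=
  univ.filter (fun z => T.Ed u v s σ z.1 z.2)

noncomputable def GD (s σ : ℕ) : Finset (L × L) :=
  univ.filter (fun z => T.Good s σ z.1 z.2)

theorem sum_PE {m : ℕ} (hm : m ≤ p) (hS : S = p * m) {s σ : ℕ} (hs : s < S)
    (hσ : σ < ν * p ^ s) :
    (T.GD s σ).card * (p - 2 * m) ≤ ∑ z : ZMod p × ZMod p, (T.PE z.1 z.2 s σ).card := by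
  have h1 : ∀ z : ZMod p × ZMod p, (T.PE z.1 z.2 s σ).card =
      ∑ y : L × L, if T.Ed z.1 z.2 s σ y.1 y.2 then 1 else 0 := by
    intro z
    rw [PE, card_filter]
  simp_rw [h1]
  rw [Finset.sum_comm]
  calc (T.GD s σ).card * (p - 2 * m) = ∑ _y ∈ T.GD s σ, (p - 2 * m) := by
        rw [sum_const, smul_eq_mul]
    _ ≤ ∑ y ∈ T.GD s σ, ∑ z : ZMod p × ZMod p, (if T.Ed z.1 z.2 s σ y.1 y.2 then 1 else 0) := by
        refine sum_le_sum (fun y hy => ?_)
        have hy' : T.Good s σ y.1 y.2 := by simpa [GD] using hy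
        rw [← card_filter]
        refine (uv_count (s := s) (by omega) hm (T.Q s y.1 y.2)
          (fun s' => T.Q s' (y.2 + T.π (hgt p ν s' (σ % p ^ (s' + 1))) (y.1 - y.2)) y.2)
          (fun s' => T.Q s' y.1 (y.1 - T.π (hgt p ν s' (σ % p ^ (s' + 1))) (y.1 - y.2)))).trans ?_
        refine card_le_card (fun z hz => ?_)
        simp only [mem_filter, mem_univ, true_and] at hz ⊢
        exact ⟨hs, hσ, hy'.τk, hy'.τκ, hy'.mem, hy'.ex, hy'.lab, hz.1.symm, hz.2⟩
    _ ≤ ∑ y : L × L, ∑ z : ZMod p × ZMod p, (if T.Ed z.1 z.2 s σ y.1 y.2 then 1 else 0) :=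
        sum_le_sum_of_subset (subset_univ _)

noncomputable def nV {M : ℕ} (T : Tow p M L) : ℕ := (univ.filter (fun l : L => T.τ l = 0)).card

noncomputable def nK {M : ℕ} (T : Tow p M L) (j : ℕ) : ℕ :=
  (univ.filter (fun l : L => T.π j l = 0)).card

omit [Fact p.Prime] in
theorem Bd_inj : Function.Injective (Bd p ν) := by
  apply StrictMono.injective
  intro a b h
  exact Bd_lt h

theorem GD_card {s σ : ℕ} (hs : s < S) (hσ : σ < ν * p ^ s) :
    T.nV * ((p - 1) * T.nE (hgt p ν s σ)) ≤ p ^ (s + 3) * (T.GD s σ).card := by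
  have hhgt : hgt p ν s σ ≤ Bd p ν S := Carb.hgt_le hσ hs
  set H : Finset ℕ := (range (s + 1)).image (Bd p ν) with hH
  have hHc : H.card = s + 1 := by
    rw [hH, card_image_of_injective _ Bd_inj, card_range]
  have hHlt : ∀ h ∈ H, h < hgt p ν s σ := by
    intro h hh
    obtain ⟨i, hi, rfl⟩ := mem_image.1 hh
    have : Bd p ν i ≤ Bd p ν s := Bd_mono (by simpa [Nat.lt_succ_iff] using hi)
    simp only [hgt]; omega
  have h0 : hgt p ν s σ - 1 ∉ H := by
    intro hh
    obtain ⟨i, hi, h1⟩ := mem_image.1 hh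
    have : Bd p ν i ≤ Bd p ν s := Bd_mono (by simpa [Nat.lt_succ_iff] using hi)
    simp only [hgt] at h1; omega
  have h0lt : hgt p ν s σ - 1 < hgt p ν s σ := by simp only [hgt]; omega
  -- for each column, count rows
  have key : ∀ κ : L, T.τ κ = 0 → (p - 1) * T.nE (hgt p ν s σ) ≤
      p ^ (s + 3) * (univ.filter (fun k : L => T.Good s σ k κ)).card := by
    intro κ hκ
    obtain ⟨a, ha⟩ := exists_digits (p := p) (dsum p (T.dg ν κ) (s + 1) - σ) (s + 1)
    set w' : ℕ → ZMod p := fun i => a i - ((ν + 1 : ℕ) : ZMod p) - T.dg ν κ i with hw'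
    set w : ℕ → ZMod p := Function.extend (Bd p ν) w' 0 with hw
    rw [T.cnt_ne hhgt H hHlt h0 h0lt 0 w, hHc]
    refine Nat.mul_le_mul_left _ ?_
    refine card_le_card_of_injOn (fun l => κ + l) ?_ (fun _ _ _ _ h => add_left_cancel h)
    intro l hl
    have hl' := mem_coe.1 hl
    simp only [mem_filter, mem_univ, true_and] at hl'
    obtain ⟨l1, l2, l3, l4⟩ := hl'
    simp only [coe_filter, mem_univ, true_and, Set.mem_ofPred_eq]
    refine ⟨by rw [map_add, hκ, l2, add_zero], hκ, by simpa using l1, by simpa using l4, ?_⟩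
    have h5 : ∀ i, i < s + 1 → T.dg ν (κ + l) i + ((ν + 1 : ℕ) : ZMod p) = a i := by
      intro i hi
      have h6 : T.D (Bd p ν i) l = w' i := by
        rw [l3 _ (mem_image.2 ⟨i, by simpa using hi, rfl⟩), hw, Bd_inj.extend_apply]
      unfold dg at *
      rw [map_add, h6, hw']
      ring
    unfold dif
    rw [dsum_congr (a := fun i => T.dg ν (κ + l) i + ((ν + 1 : ℕ) : ZMod p)) (b := a) h5]
    have := (Int.ModEq.refl (dsum p (T.dg ν κ) (s + 1))).sub ha
    simpa using this
  have h1 : (T.GD s σ).card = ∑ κ : L, (univ.filter (fun k : L => T.Good s σ k κ)).card := by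
    rw [GD, card_filter, Fintype.sum_prod_type_right]
    refine sum_congr rfl (fun κ _ => ?_)
    rw [card_filter]
  rw [h1, mul_sum]
  calc T.nV * ((p - 1) * T.nE (hgt p ν s σ))
      = ∑ _κ ∈ univ.filter (fun l : L => T.τ l = 0), (p - 1) * T.nE (hgt p ν s σ) := by
        rw [sum_const, smul_eq_mul, nV]
    _ ≤ ∑ κ ∈ univ.filter (fun l : L => T.τ l = 0),
        p ^ (s + 3) * (univ.filter (fun k : L => T.Good s σ k κ)).card :=
        sum_le_sum (fun κ hκ => key κ (by simpa using hκ))
    _ ≤ ∑ κ : L, p ^ (s + 3) * (univ.filter (fun k : L => T.Good s σ k κ)).card :=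
        sum_le_sum_of_subset (subset_univ _)

end Tow

end Pool.Agent.Helper190.Carb
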