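import Pool.Agent.Helper190.Carb.Digits

set_option autoImplicit false

namespace Pool.Agent.Helper190.Carb

/-- tower of finite fields with compatible projections. -/
structure Tow (p M : ℕ) [Fact p.Prime] (L : Type) [Field L] [Algebra (ZMod p) L] where
  E : ℕ → Subfield L
  π : ℕ → L →+ L
  τ : L →+ ZMod p
  δ : ℕ → L
  ζ : ℕ → L
  mono : Monotone E
  π_mem : ∀ j x, π j x ∈ E j
  π_id : ∀ j x, x ∈ E j → π j x = x
  π_mul : ∀ j a x, a ∈ E j → π j (a * x) = a * π j x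
  π_π : ∀ i j x, i ≤ j → π i (π j x) = π i x
  τ_eq : ∀ x, algebraMap (ZMod p) L (τ x) = π 0 x
  δζ : ∀ h, h < M → δ h ∈ E (h + 1) ∧ ζ h ∈ E (h + 1) ∧ π h (δ h) = 0 ∧ π h (ζ h) = 0 ∧
    τ (δ h * ζ h) = 1
  top : E M = ⊤

variable {p M : ℕ} [Fact p.Prime] {L : Type} [Field L] [Algebra (ZMod p) L]

namespace Tow

variable (T : Tow p M L)

theorem alg_inj : Function.Injective (algebraMap (ZMod p) L) := (algebraMap (ZMod p) L).injective

theorem τ_π (j : ℕ) (x : L) : T.τ (T.π j x) = T.τ x := by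
  apply alg_inj (L := L)
  rw [T.τ_eq, T.τ_eq, T.π_π 0 j x (Nat.zero_le _)]

theorem alg_mem (j : ℕ) (a : ZMod p) : algebraMap (ZMod p) L a ∈ T.E j := by
  obtain ⟨n, rfl⟩ := ZMod.natCast_zmod_surjective a
  rw [map_natCast]
  exact natCast_mem _ n

theorem τ_alg (a : ZMod p) : T.τ (algebraMap (ZMod p) L a) = a := by
  apply alg_inj (L := L)
  rw [T.τ_eq, T.π_id 0 _ (T.alg_mem 0 a)]

theorem τ_mul_zero {j : ℕ} {a x : L} (ha : a ∈ T.E j) (hx : T.π j x = 0) : T.τ (a * x) = 0 := by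
  rw [← T.τ_π j, T.π_mul j a x ha, hx, mul_zero, map_zero]

/-- digit functional at height `h + 1`. -/
def D (h : ℕ) : L →+ ZMod p where
  toFun x := T.τ (T.δ h * x)
  map_zero' := by simp
  map_add' x y := by simp [mul_add]

theorem D_apply (h : ℕ) (x : L) : T.D h x = T.τ (T.δ h * x) := rfl

theorem D_vanish {h j : ℕ} (hh : h < M) (hj : j ≤ h) {x : L} (hx : x ∈ T.E j) : T.D h x = 0 := by
  rw [D_apply, mul_comm]
  exact T.τ_mul_zero (T.mono hj hx) (T.δζ h hh).2.2.1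

theorem D_π {h j : ℕ} (hh : h < M) (hj : h + 1 ≤ j) (x : L) : T.D h (T.π j x) = T.D h x := by
  rw [D_apply, D_apply, ← T.π_mul j _ x (T.mono hj (T.δζ h hh).1), T.τ_π]

theorem D_congr {h j : ℕ} (hh : h < M) (hj : h + 1 ≤ j) {x y : L} (hxy : T.π j x = T.π j y) :
    T.D h x = T.D h y := by
  rw [← T.D_π hh hj x, ← T.D_π hh hj y, hxy]

theorem D_ζ {h h' : ℕ} (hh : h < M) (hh' : h' < M) :
    T.D h (T.ζ h') = if h = h' then 1 else 0 := by
  rw [D_apply]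
  obtain ⟨h1, h2, h3, h4, h5⟩ := T.δζ h hh
  obtain ⟨k1, k2, k3, k4, k5⟩ := T.δζ h' hh'
  rcases lt_trichotomy h h' with hlt | rfl | hlt
  · rw [if_neg hlt.ne]
    exact T.τ_mul_zero (T.mono hlt h1) k4
  · simp [h5]
  · rw [if_neg hlt.ne', mul_comm]
    exact T.τ_mul_zero (T.mono hlt k2) h3

theorem τ_ζ {h : ℕ} (hh : h < M) : T.τ (T.ζ h) = 0 := by
  have := T.τ_mul_zero (j := h) (a := 1) (one_mem _) (T.δζ h hh).2.2.2.1
  simpa using this

theorem ζ_mem {h j : ℕ} (hh : h < M) (hj : h + 1 ≤ j) : T.ζ h ∈ T.E j :=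
  T.mono hj (T.δζ h hh).2.1

theorem D_one {h : ℕ} (hh : h < M) : T.D h 1 = 0 := T.D_vanish hh le_rfl (one_mem _)

theorem τ_one : T.τ 1 = 1 := by
  have := T.τ_alg 1
  simpa using this

theorem mem_zero {x : L} (hx : x ∈ T.E 0) (hτ : T.τ x = 0) : x = 0 := by
  rw [← T.π_id 0 x hx, ← T.τ_eq, hτ, map_zero]

end Tow

end Pool.Agent.Helper190.Carb
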